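import Pool.Agent.H73.Avr.Prism

/-!
# A Borsuk-Ulam type theorem for `ℤ/q`

A contractible space with a continuous `ℤ/q`-action has no equivariant locally compatible
labelling by `ℤ/q × Fin M`.
-/

namespace Pool.Agent.H73.Avr

open FreeAbelianGroup

variable {X : Type} {q : ℕ}

/-- label chains -/
noncomputable def Ph (ℓ : X → ZMod q × ℕ) (M : ℕ) : O X →+ Ch q M :=
  lift (fun σ => tup M (σ.map ℓ))

theorem Ph_of (ℓ : X → ZMod q × ℕ) (M : ℕ) (σ : List X) : Ph ℓ M (of σ) = tup M (σ.map ℓ) :=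
  lift_apply_of _ _

theorem Ph_cns (ℓ : X → ZMod q × ℕ) (M : ℕ) (x : X) (y : O X) :
    Ph ℓ M (cns x y) = ins (ℓ x).1 (ℓ x).2 M (Ph ℓ M y) := by
  have : (Ph ℓ M).comp (cns x) = (ins (ℓ x).1 (ℓ x).2 M).comp (Ph ℓ M) := by
    apply FreeAbelianGroup.lift_ext
    intro σ
    show Ph ℓ M (cns x (of σ)) = ins (ℓ x).1 (ℓ x).2 M (Ph ℓ M (of σ))
    rw [cns_of, Ph_of, Ph_of]; rfl
  exact DFunLike.congr_fun this y

theorem Ph_Dg (ℓ : X → ZMod q × ℕ) (M : ℕ) {y : O X} (hy : y ∈ cl (X := X) Dg) :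
    Ph ℓ M y = 0 := by
  have : Ph ℓ M y ∈ (⊥ : AddSubgroup (Ch q M)) := by
    refine map_mem_of_cl (Ph ℓ M) ?_ hy
    rintro _ ⟨l, x, r, rfl⟩
    rw [AddSubgroup.mem_bot, Ph_of]
    induction l with
    | nil =>
      show ins (ℓ x).1 (ℓ x).2 M (ins (ℓ x).1 (ℓ x).2 M (tup M (r.map ℓ))) = 0
      exact ins_ins _ _ _ _
    | cons z l ih =>
      show ins (ℓ z).1 (ℓ z).2 M (tup M ((l ++ x :: x :: r).map ℓ)) = 0
      rw [ih, map_zero]
  exact (AddSubgroup.mem_bot).1 this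

theorem Ph_dO [NeZero q] (ℓ : X → ZMod q × ℕ) (M : ℕ) (hM : ∀ x, (ℓ x).2 < M) {y : O X}
    (hy : y ∈ cl (X := X) (fun σ => (σ.map ℓ).Pairwise Compat)) :
    Ph ℓ M (dO y) = bd M (Ph ℓ M y) := by
  have : ((Ph ℓ M).comp dO - (bd M).comp (Ph ℓ M)) y ∈ (⊥ : AddSubgroup (Ch q M)) := by
    refine map_mem_of_cl _ ?_ hy
    intro σ hσ
    rw [AddSubgroup.mem_bot]
    show Ph ℓ M (dO (of σ)) - bd M (Ph ℓ M (of σ)) = 0
    rw [sub_eq_zero, Ph_of, dO_of]
    induction σ with
    | nil =>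
      show Ph ℓ M 0 = bd M (emp M)
      rw [map_zero, bd_emp]
    | cons x σ ih =>
      rw [List.map_cons, List.pairwise_cons] at hσ
      show Ph ℓ M (of σ - cns x (dl σ)) = bd M (tup M (ℓ x :: σ.map ℓ))
      rw [map_sub, Ph_cns, Ph_of, ih hσ.2, bd_tup_cons M (ℓ x) (σ.map ℓ) (hM x) hσ.1]
  have h2 := (AddSubgroup.mem_bot).1 this
  exact sub_eq_zero.1 h2

theorem Ph_mp (ℓ : X → ZMod q × ℕ) (M : ℕ) {g : X → X}
    (hℓ : ∀ x, ℓ (g x) = ((ℓ x).1 + 1, (ℓ x).2)) (y : O X) :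
    Ph ℓ M (mp g y) = sh M (Ph ℓ M y) := by
  have : (Ph ℓ M).comp (mp g) = (sh M).comp (Ph ℓ M) := by
    apply FreeAbelianGroup.lift_ext
    intro σ
    show Ph ℓ M (mp g (of σ)) = sh M (Ph ℓ M (of σ))
    rw [mp_of, Ph_of, Ph_of, sh_tup, List.map_map, List.map_map]
    congr 1
    apply List.map_congr_left
    intro x _
    exact hℓ x
  exact DFunLike.congr_fun this y

theorem Ph_iter (ℓ : X → ZMod q × ℕ) (M : ℕ) {g : X → X}
    (hℓ : ∀ x, ℓ (g x) = ((ℓ x).1 + 1, (ℓ x).2)) (s : ℕ) (y : O X) :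
    Ph ℓ M ((mp g)^[s] y) = (sh M)^[s] (Ph ℓ M y) := by
  induction s with
  | zero => rfl
  | succ s ih => rw [Function.iterate_succ_apply', Ph_mp ℓ M hℓ, ih, Function.iterate_succ_apply']

/-- discrete form of the theorem -/
theorem engine_disc [NeZero q] (hq : 1 < q) (M : ℕ) {g : X → X} (hg : g^[q] = id)
    (ℓ : X → ZMod q × ℕ) (hℓ : ∀ x, ℓ (g x) = ((ℓ x).1 + 1, (ℓ x).2)) (hM : ∀ x, (ℓ x).2 < M)
    (Hs : ℕ → X → X) (D : ℕ) (x0 x1 : X) (h0 : ∀ x, Hs 0 x = x) (hD : ∀ x, Hs D x = x1)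
    (F : ℕ → Set (Set X)) (hF0 : ∃ S ∈ F 0, x0 ∈ S)
    (hF : ∀ k, ∀ S ∈ F k, ∀ s < q, ∀ i < D, ∃ S' ∈ F (k + 1), ∀ x ∈ S,
      Hs i (g^[s] x) ∈ S' ∧ Hs (i + 1) (g^[s] x) ∈ S')
    (hcomp : ∀ k ≤ M, ∀ S ∈ F k, ∀ x ∈ S, ∀ y ∈ S, Compat (ℓ x) (ℓ y)) : False := by
  have hpair : ∀ k ≤ M, ∀ σ, Sm F k σ → (σ.map ℓ).Pairwise Compat := by
    rintro k hk σ ⟨_, S, hS, hx⟩
    rw [List.pairwise_map]
    exact List.pairwise_of_forall_mem_list fun a ha b hb => hcomp k hk S hS a (hx a ha) b (hx b hb)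
  have hmem : ∀ k, ech g q Hs D x0 k ∈ cl (Sm F k) := ech_mem hq hF0 hF
  have hmem2 : ∀ k ≤ M, ech g q Hs D x0 k ∈ cl (X := X) (fun σ => (σ.map ℓ).Pairwise Compat) := by
    intro k hk
    have h4 : cl (X := X) (Sm F k) ≤ cl (X := X) (fun σ => (σ.map ℓ).Pairwise Compat) := by
      unfold cl
      rw [AddSubgroup.closure_le]
      rintro _ ⟨τ, h5, rfl⟩
      exact AddSubgroup.subset_closure ⟨τ, hpair k hk τ h5, rfl⟩
    exact h4 (hmem k)
  have hrel : ∀ k < M, bd M (Ph ℓ M (ech g q Hs D x0 (k + 1))) =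
      -Ph ℓ M (opc g q k (ech g q Hs D x0 k)) := by
    intro k hk
    have h1 := Ph_Dg ℓ M (dO_ech (x0 := x0) hq hg h0 hD k)
    rw [map_add, Ph_dO ℓ M hM (hmem2 (k + 1) hk)] at h1
    exact eq_neg_of_add_eq_zero_left h1
  refine descent hq M (fun k => Ph ℓ M (ech g q Hs D x0 k)) ?_ ?_ ?_ ?_
  · have : Ph ℓ M (ech g q Hs D x0 M) ∈ (⊥ : AddSubgroup (Ch q M)) := by
      refine map_mem_of_cl (Ph ℓ M) ?_ (hmem M)
      intro σ hσ
      rw [AddSubgroup.mem_bot, Ph_of]
      refine tup_eq_zero_of_length M _ (hpair M le_rfl σ hσ) ?_ (by rw [List.length_map, hσ.1]; omega)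
      intro v hv
      obtain ⟨x, _, rfl⟩ := List.mem_map.1 hv
      exact hM x
    exact (AddSubgroup.mem_bot).1 this
  · show bd M (Ph ℓ M (of [x0])) = emp M
    rw [Ph_of]
    show bd M (tup M (ℓ x0 :: [])) = emp M
    rw [bd_tup_cons M (ℓ x0) [] (hM x0) (by simp)]
    show emp M - ins _ _ M (bd M (emp M)) = emp M
    rw [bd_emp, map_zero, sub_zero]
  · intro k hk he
    show bd M (Ph ℓ M (ech g q Hs D x0 (k + 1))) = _
    rw [hrel k hk]
    unfold opc
    rw [if_pos he, map_sub, Ph_mp ℓ M hℓ]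
  · intro k hk ho
    show bd M (Ph ℓ M (ech g q Hs D x0 (k + 1))) = _
    rw [hrel k hk]
    unfold opc
    rw [if_neg (Nat.not_even_iff_odd.2 ho)]
    congr 1
    unfold Nm
    rw [map_sum]
    exact Finset.sum_congr rfl fun s _ => Ph_iter ℓ M hℓ s _

/-- iterated cones and translates of a point -/
def theta (H : X → ℝ → X) (g : X → X) (x0 : X) : ℕ → (ℕ → ℕ) → (ℕ → ℝ) → X
  | 0, _, _ => x0
  | (k + 1), a, t => H (g^[a k] (theta H g x0 k a t)) (t k)

theorem theta_congr (H : X → ℝ → X) (g : X → X) (x0 : X) (k : ℕ) {a a' : ℕ → ℕ} {t t' : ℕ → ℝ}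
    (ha : ∀ i < k, a i = a' i) (ht : ∀ i < k, t i = t' i) :
    theta H g x0 k a t = theta H g x0 k a' t' := by
  induction k with
  | zero => rfl
  | succ k ih =>
    show H (g^[a k] (theta H g x0 k a t)) (t k) = H (g^[a' k] (theta H g x0 k a' t')) (t' k)
    rw [ih (fun i hi => ha i (by omega)) (fun i hi => ht i (by omega)), ha k (by omega),
      ht k (by omega)]

theorem theta_continuous [TopologicalSpace X] {H : X → ℝ → X}
    (hH : Continuous (fun p : X × ℝ => H p.1 p.2)) {g : X → X} (hg : Continuous g) (x0 : X)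
    (k : ℕ) (a : ℕ → ℕ) : Continuous (theta H g x0 k a) := by
  induction k with
  | zero => exact continuous_const
  | succ k ih =>
    have h1 : Continuous (fun t => g^[a k] (theta H g x0 k a t)) := (hg.iterate _).comp ih
    exact hH.comp (h1.prodMk (continuous_apply k))

/-- **Borsuk-Ulam for `ℤ/q`.** -/
theorem engine [TopologicalSpace X] [ContractibleSpace X] [NeZero q] (hq : 1 < q) (M : ℕ)
    {g : X → X} (hgc : Continuous g) (hg : g^[q] = id)
    (ℓ : X → ZMod q × ℕ) (hℓ : ∀ x, ℓ (g x) = ((ℓ x).1 + 1, (ℓ x).2)) (hM : ∀ x, (ℓ x).2 < M)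
    (hloc : ∀ x, ∃ U : Set X, IsOpen U ∧ x ∈ U ∧ ∀ y ∈ U, ∀ z ∈ U, Compat (ℓ y) (ℓ z)) :
    False := by
  obtain ⟨x1, ⟨Hh⟩⟩ := id_nullhomotopic X
  let H : X → ℝ → X := fun x t => Hh (Set.projIcc 0 1 zero_le_one t, x)
  have hHc : Continuous (fun p : X × ℝ => H p.1 p.2) := by
    exact Hh.continuous.comp ((continuous_projIcc.comp continuous_snd).prodMk continuous_fst)
  have hH0 : ∀ x, H x 0 = x := by
    intro x
    show Hh (Set.projIcc 0 1 zero_le_one 0, x) = x
    rw [Set.projIcc_left]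
    exact Hh.apply_zero x
  have hH1 : ∀ x, H x 1 = x1 := by
    intro x
    show Hh (Set.projIcc 0 1 zero_le_one 1, x) = x1
    rw [Set.projIcc_right]
    exact Hh.apply_one x
  choose U hUo hUx hUc using hloc
  -- boxes
  let Bx : ℕ → ℕ → (ℕ → ℕ) → (ℕ → ℕ) → Set X := fun D k a j =>
    {x | ∃ t : ℕ → ℝ, (∀ i < k, (j i : ℝ) / D ≤ t i ∧ t i ≤ (j i + 1 : ℝ) / D) ∧
      x = theta H g x1 k a t}
  have hleb : ∀ k : ℕ, ∀ α : Fin k → Fin q, ∃ D0 : ℕ, ∀ D ≥ D0, ∀ a : ℕ → ℕ,
      (∀ i (hi : i < k), a i = α ⟨i, hi⟩) → ∀ j : ℕ → ℕ, (∀ i < k, j i < D) →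
      ∀ x ∈ Bx D k a j, ∀ y ∈ Bx D k a j, Compat (ℓ x) (ℓ y) := by
    intro k α
    let a0 : ℕ → ℕ := fun i => if h : i < k then α ⟨i, h⟩ else 0
    let ex : (Fin k → ℝ) → (ℕ → ℝ) := fun u i => if h : i < k then u ⟨i, h⟩ else 0
    have hex : Continuous ex := by
      apply continuous_pi
      intro i
      by_cases h : i < k
      · simp only [ex, h, dif_pos]; exact continuous_apply _
      · simp only [ex, h, dif_neg, not_false_eq_true]; exact continuous_const
    have hf : Continuous (fun u : Fin k → ℝ => theta H g x1 k a0 (ex u)) :=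
      (theta_continuous hHc hgc x1 k a0).comp hex
    have hK : IsCompact (Set.Icc (0 : Fin k → ℝ) 1) := isCompact_Icc
    obtain ⟨δ, hδ, hball⟩ := lebesgue_number_lemma_of_metric hK
      (c := fun x : X => (fun u : Fin k → ℝ => theta H g x1 k a0 (ex u)) ⁻¹' (U x))
      (fun x => (hUo x).preimage hf)
      (fun u _ => Set.mem_iUnion.2 ⟨theta H g x1 k a0 (ex u), hUx _⟩)
    refine ⟨⌊1 / δ⌋₊ + 1, fun D hD a ha j hj => ?_⟩
    have hDpos : (0 : ℝ) < D := by
      have : 0 < D := by omega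
      exact_mod_cast this
    have hDδ : 1 / (D : ℝ) < δ := by
      have h1 : 1 / δ < (⌊1 / δ⌋₊ : ℝ) + 1 := Nat.lt_floor_add_one _
      have h2 : ((⌊1 / δ⌋₊ + 1 : ℕ) : ℝ) ≤ D := by exact_mod_cast hD
      push_cast at h2
      rw [div_lt_iff₀ hDpos]
      rw [div_lt_iff₀ hδ] at h1
      nlinarith
    let u0 : Fin k → ℝ := fun i => (j i : ℝ) / D
    have hu0 : u0 ∈ Set.Icc (0 : Fin k → ℝ) 1 := by
      constructor
      · intro i; simp only [u0, Pi.zero_apply]; positivity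
      · intro i
        simp only [u0, Pi.one_apply]
        rw [div_le_one hDpos]
        exact_mod_cast (hj i i.2).le
    obtain ⟨x, hx⟩ := hball u0 hu0
    have hin : ∀ y ∈ Bx D k a j, y ∈ U x := by
      rintro y ⟨t, ht, rfl⟩
      have h1 : theta H g x1 k a t = theta H g x1 k a0 (ex (fun i => t i)) := by
        apply theta_congr
        · intro i hi; simp only [a0, hi, dif_pos]; exact ha i hi
        · intro i hi; simp only [ex, hi, dif_pos]
      rw [h1]
      have h2 : (fun i : Fin k => t i) ∈ Metric.ball u0 δ := by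
        rw [Metric.mem_ball, dist_pi_lt_iff hδ]
        intro i
        obtain ⟨h3, h4⟩ := ht i i.2
        rw [Real.dist_eq, abs_lt]
        have h5 : ((j i : ℝ) + 1) / D = (j i : ℝ) / D + 1 / D := by ring
        rw [h5] at h4
        constructor
        · show -δ < t i - (j i : ℝ) / D
          linarith
        · show t i - (j i : ℝ) / D < δ
          linarith
      exact hx h2
    intro y hy z hz
    exact hUc x y (hin y hy) z (hin z hz)
  choose D0 hD0 using hleb
  let D : ℕ := (Finset.range (M + 1)).sup (fun k => Finset.univ.sup (fun α => D0 k α)) + 1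
  have hDpos : 0 < D := Nat.succ_pos _
  have hDR : (0 : ℝ) < D := by exact_mod_cast hDpos
  let F : ℕ → Set (Set X) := fun k => {S | ∃ a : ℕ → ℕ, (∀ i < k, a i < q) ∧ ∃ j : ℕ → ℕ,
    (∀ i < k, j i < D) ∧ S = Bx D k a j}
  refine engine_disc hq M hg ℓ hℓ hM (fun i x => H x ((i : ℝ) / D)) D x1 x1 ?_ ?_ F ?_ ?_ ?_
  · intro x
    show H x (((0 : ℕ) : ℝ) / D) = x
    rw [Nat.cast_zero, zero_div]; exact hH0 x
  · intro x
    show H x ((D : ℝ) / D) = x1
    rw [div_self hDR.ne']; exact hH1 x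
  · exact ⟨Bx D 0 (fun _ => 0) (fun _ => 0), ⟨fun _ => 0, by simp, fun _ => 0, by simp, rfl⟩,
      fun _ => 0, by simp, rfl⟩
  · rintro k S ⟨a, ha, j, hj, rfl⟩ s hs i hi
    refine ⟨Bx D (k + 1) (Function.update a k s) (Function.update j k i), ⟨_, ?_, _, ?_, rfl⟩, ?_⟩
    · intro i' hi'
      by_cases h : i' = k
      · rw [h, Function.update_self]; exact hs
      · rw [Function.update_of_ne h]; exact ha i' (by omega)
    · intro i' hi'
      by_cases h : i' = k
      · rw [h, Function.update_self]; exact hi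
      · rw [Function.update_of_ne h]; exact hj i' (by omega)
    · rintro x ⟨t, ht, rfl⟩
      have main : ∀ c : ℝ, (i : ℝ) / D ≤ c → c ≤ (i + 1 : ℝ) / D →
          H (g^[s] (theta H g x1 k a t)) c ∈
            Bx D (k + 1) (Function.update a k s) (Function.update j k i) := by
        intro c hc1 hc2
        refine ⟨Function.update t k c, ?_, ?_⟩
        · intro i' hi'
          by_cases h : i' = k
          · rw [h, Function.update_self, Function.update_self]; exact ⟨hc1, hc2⟩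
          · rw [Function.update_of_ne h, Function.update_of_ne h]; exact ht i' (by omega)
        · show H (g^[s] (theta H g x1 k a t)) c =
            H (g^[Function.update a k s k] (theta H g x1 k (Function.update a k s)
              (Function.update t k c))) (Function.update t k c k)
          rw [Function.update_self, Function.update_self]
          congr 2
          apply theta_congr
          · intro i' hi'; rw [Function.update_of_ne (by omega)]
          · intro i' hi'; rw [Function.update_of_ne (by omega)]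
      constructor
      · exact main _ le_rfl (by gcongr; linarith)
      · show H (g^[s] (theta H g x1 k a t)) (((i + 1 : ℕ) : ℝ) / D) ∈ _
        apply main
        · push_cast; gcongr; linarith
        · push_cast; exact le_rfl
  · rintro k hk S ⟨a, ha, j, hj, rfl⟩ x hx y hy
    let α : Fin k → Fin q := fun i => ⟨a i, ha i i.2⟩
    have hDk : D0 k α ≤ D := by
      have h1 : D0 k α ≤ Finset.univ.sup (fun α => D0 k α) :=
        Finset.le_sup (f := fun α => D0 k α) (Finset.mem_univ α)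
      have h2 : Finset.univ.sup (fun α => D0 k α) ≤
          (Finset.range (M + 1)).sup (fun k => Finset.univ.sup (fun α => D0 k α)) :=
        Finset.le_sup (f := fun k => Finset.univ.sup (fun α => D0 k α))
          (Finset.mem_range.2 (by omega))
      exact (h1.trans h2).trans (Nat.le_succ _)
    exact hD0 k α D hDk a (fun i hi => rfl) j hj x hx y hy

end Pool.Agent.H73.Avr
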