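import Mathlib

/-!
# The augmented chain complex of the `M`-fold join of `ℤ/q`

`Ch q M` is defined recursively: an element of `Ch q (M+1)` is a pair `(c, d)` standing for
`c + Σ_h (h, M) ∧ d h`.
-/

namespace Pool.Agent.H73.Avr

/-- chains of the `M`-fold join of `ℤ/q` with coefficients in `ℤ/q` (all degrees together) -/
def Ch (q : ℕ) : ℕ → Type
  | 0 => ZMod q
  | (M + 1) => Ch q M × (ZMod q → Ch q M)

noncomputable instance instCh (q : ℕ) : ∀ M, AddCommGroup (Ch q M)
  | 0 => inferInstanceAs (AddCommGroup (ZMod q))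
  | (M + 1) => by
    have := instCh q M
    exact inferInstanceAs (AddCommGroup (Ch q M × (ZMod q → Ch q M)))

variable {q : ℕ}

theorem Ch.ext {M : ℕ} {x y : Ch q (M + 1)} (h1 : x.1 = y.1) (h2 : ∀ h, x.2 h = y.2 h) : x = y :=
  Prod.ext h1 (funext h2)

theorem Ch.add_fst {M : ℕ} (x y : Ch q (M + 1)) : (x + y).1 = x.1 + y.1 := rfl
theorem Ch.add_snd {M : ℕ} (x y : Ch q (M + 1)) (h : ZMod q) : (x + y).2 h = x.2 h + y.2 h := rfl
theorem Ch.neg_fst {M : ℕ} (x : Ch q (M + 1)) : (-x).1 = -x.1 := rfl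
theorem Ch.neg_snd {M : ℕ} (x : Ch q (M + 1)) (h : ZMod q) : (-x).2 h = -x.2 h := rfl
theorem Ch.zero_fst {M : ℕ} : (0 : Ch q (M + 1)).1 = 0 := rfl
theorem Ch.zero_snd {M : ℕ} (h : ZMod q) : (0 : Ch q (M + 1)).2 h = 0 := rfl

/-- first projection -/
noncomputable def pfst (M : ℕ) : Ch q (M + 1) →+ Ch q M where
  toFun x := x.1
  map_zero' := rfl
  map_add' _ _ := rfl

/-- component of the second projection -/
noncomputable def psnd (M : ℕ) (h : ZMod q) : Ch q (M + 1) →+ Ch q M where
  toFun x := x.2 h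
  map_zero' := rfl
  map_add' _ _ := rfl

/-- building a homomorphism into `Ch q (M+1)` -/
noncomputable def mk {A : Type*} [AddCommGroup A] (M : ℕ) (f : A →+ Ch q M)
    (k : ZMod q → A →+ Ch q M) : A →+ Ch q (M + 1) where
  toFun a := (f a, fun h => k h a)
  map_zero' := Ch.ext (by show f 0 = 0; simp) (fun h => by show k h 0 = 0; simp)
  map_add' a b := Ch.ext (by show f (a + b) = f a + f b; simp)
    (fun h => by show k h (a + b) = k h a + k h b; simp)

/-- the empty simplex -/
noncomputable def emp : ∀ M, Ch q M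
  | 0 => (1 : ZMod q)
  | (M + 1) => (emp M, 0)

/-- coefficient of the empty simplex -/
noncomputable def e0 : ∀ M, Ch q M →+ ZMod q
  | 0 => AddMonoidHom.id (ZMod q)
  | (M + 1) => (e0 M).comp (pfst M)

/-- the action of the generator -/
noncomputable def sh : ∀ M, Ch q M →+ Ch q M
  | 0 => AddMonoidHom.id (ZMod q)
  | (M + 1) => mk M ((sh M).comp (pfst M)) (fun h => (sh M).comp (psnd M (h - 1)))

/-- the boundary -/
noncomputable def bd [NeZero q] : ∀ M, Ch q M →+ Ch q M
  | 0 => 0
  | (M + 1) => mk M ((bd M).comp (pfst M) + ∑ h : ZMod q, psnd M h)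
      (fun h => -((bd M).comp (psnd M h)))

/-- insertion of the vertex `(h0, j)` in front -/
noncomputable def ins (h0 : ZMod q) (j : ℕ) : ∀ M, Ch q M →+ Ch q M
  | 0 => 0
  | (M + 1) => if j = M then mk M 0 (fun h => if h = h0 then pfst M else 0)
      else mk M ((ins h0 j M).comp (pfst M)) (fun h => -((ins h0 j M).comp (psnd M h)))

theorem sh_fst (M : ℕ) (x : Ch q (M + 1)) : (sh (M + 1) x).1 = sh M x.1 := rfl
theorem sh_snd (M : ℕ) (x : Ch q (M + 1)) (h : ZMod q) :
    (sh (M + 1) x).2 h = sh M (x.2 (h - 1)) := rfl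
theorem e0_succ (M : ℕ) (x : Ch q (M + 1)) : e0 (M + 1) x = e0 M x.1 := rfl
theorem emp_fst (M : ℕ) : (emp (M + 1) : Ch q (M + 1)).1 = emp M := rfl
theorem emp_snd (M : ℕ) (h : ZMod q) : (emp (M + 1) : Ch q (M + 1)).2 h = 0 := rfl

section
variable [NeZero q]

theorem bd_fst (M : ℕ) (x : Ch q (M + 1)) :
    (bd (M + 1) x).1 = bd M x.1 + ∑ h : ZMod q, x.2 h := by
  show (((bd M).comp (pfst M) + ∑ h : ZMod q, psnd M h : Ch q (M + 1) →+ Ch q M) x) = _
  rw [AddMonoidHom.add_apply, AddMonoidHom.finsetSum_apply]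
  rfl

theorem bd_snd (M : ℕ) (x : Ch q (M + 1)) (h : ZMod q) :
    (bd (M + 1) x).2 h = -bd M (x.2 h) := rfl

end

theorem ins_fst_eq (h0 : ZMod q) (M : ℕ) (x : Ch q (M + 1)) : (ins h0 M (M + 1) x).1 = 0 := by
  show ((if M = M then mk M 0 (fun h => if h = h0 then pfst M else 0)
      else mk M ((ins h0 M M).comp (pfst M)) (fun h => -((ins h0 M M).comp (psnd M h)))) x).1 = 0
  rw [if_pos rfl]; rfl

theorem ins_snd_eq (h0 : ZMod q) (M : ℕ) (x : Ch q (M + 1)) (h : ZMod q) :
    (ins h0 M (M + 1) x).2 h = if h = h0 then x.1 else 0 := by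
  show ((if M = M then mk M 0 (fun h => if h = h0 then pfst M else 0)
      else mk M ((ins h0 M M).comp (pfst M)) (fun h => -((ins h0 M M).comp (psnd M h)))) x).2 h = _
  rw [if_pos rfl]
  show (if h = h0 then pfst M else 0) x = _
  split_ifs <;> rfl

theorem ins_fst_ne (h0 : ZMod q) {j M : ℕ} (hj : j ≠ M) (x : Ch q (M + 1)) :
    (ins h0 j (M + 1) x).1 = ins h0 j M x.1 := by
  show ((if j = M then mk M 0 (fun h => if h = h0 then pfst M else 0)
      else mk M ((ins h0 j M).comp (pfst M)) (fun h => -((ins h0 j M).comp (psnd M h)))) x).1 = _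
  rw [if_neg hj]; rfl

theorem ins_snd_ne (h0 : ZMod q) {j M : ℕ} (hj : j ≠ M) (x : Ch q (M + 1)) (h : ZMod q) :
    (ins h0 j (M + 1) x).2 h = -ins h0 j M (x.2 h) := by
  show ((if j = M then mk M 0 (fun h => if h = h0 then pfst M else 0)
      else mk M ((ins h0 j M).comp (pfst M)) (fun h => -((ins h0 j M).comp (psnd M h)))) x).2 h = _
  rw [if_neg hj]; rfl

theorem sh_emp : ∀ M, sh M (emp M : Ch q M) = emp M
  | 0 => rfl
  | (M + 1) => Ch.ext (by rw [sh_fst, emp_fst, sh_emp M])
      (fun h => by rw [sh_snd, emp_snd, emp_snd, map_zero])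

theorem e0_emp : ∀ M, e0 M (emp M : Ch q M) = 1
  | 0 => rfl
  | (M + 1) => by rw [e0_succ, emp_fst, e0_emp M]

theorem e0_sh : ∀ M (x : Ch q M), e0 M (sh M x) = e0 M x
  | 0, _ => rfl
  | (M + 1), x => by rw [e0_succ, sh_fst, e0_sh M, e0_succ]

section
variable [NeZero q]

theorem bd_emp : ∀ M, bd M (emp M : Ch q M) = 0
  | 0 => rfl
  | (M + 1) => Ch.ext (by
        rw [bd_fst, emp_fst, bd_emp M]
        simp [emp_snd, Ch.zero_fst])
      (fun h => by rw [bd_snd, emp_snd, map_zero, neg_zero]; rfl)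

theorem bd_bd : ∀ M (x : Ch q M), bd M (bd M x) = 0
  | 0, _ => rfl
  | (M + 1), x => Ch.ext (by
        rw [bd_fst, bd_fst, map_add, bd_bd M, zero_add, map_sum]
        simp [bd_snd, Ch.zero_fst])
      (fun h => by rw [bd_snd, bd_snd, map_neg, bd_bd M, neg_zero, neg_zero]; rfl)

theorem sh_bd : ∀ M (x : Ch q M), sh M (bd M x) = bd M (sh M x)
  | 0, _ => rfl
  | (M + 1), x => Ch.ext (by
        rw [sh_fst, bd_fst, bd_fst, map_add, sh_bd M, sh_fst, map_sum]
        congr 1
        rw [← Equiv.sum_comp (Equiv.subRight (1 : ZMod q)) (fun h => sh M (x.2 h))]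
        rfl)
      (fun h => by rw [sh_snd, bd_snd, bd_snd, sh_snd, map_neg, sh_bd M])

end

theorem ins_ins (h0 : ZMod q) (j : ℕ) : ∀ M (x : Ch q M), ins h0 j M (ins h0 j M x) = 0
  | 0, _ => rfl
  | (M + 1), x => by
    by_cases hj : j = M
    · subst hj
      exact Ch.ext (by rw [ins_fst_eq]; rfl) (fun h => by
        rw [ins_snd_eq, ins_fst_eq]; simp [Ch.zero_snd])
    · exact Ch.ext (by rw [ins_fst_ne h0 hj, ins_fst_ne h0 hj, ins_ins h0 j M]; rfl) (fun h => by
        rw [ins_snd_ne h0 hj, ins_snd_ne h0 hj, map_neg, ins_ins h0 j M]; simp [Ch.zero_snd])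

theorem ins_anticomm (h0 h1 : ZMod q) {j j' : ℕ} (hne : j ≠ j') : ∀ M (x : Ch q M),
    ins h0 j M (ins h1 j' M x) = -ins h1 j' M (ins h0 j M x)
  | 0, _ => by show (0 : ZMod q) = -0; simp
  | (M + 1), x => by
    by_cases hj : j = M
    · subst hj
      have hj' : j' ≠ j := fun h => hne h.symm
      refine Ch.ext ?_ (fun h => ?_)
      · rw [ins_fst_eq, Ch.neg_fst, ins_fst_ne h1 hj', ins_fst_eq, map_zero, neg_zero]
      · rw [ins_snd_eq, ins_fst_ne h1 hj', Ch.neg_snd, ins_snd_ne h1 hj', ins_snd_eq, neg_neg]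
        split_ifs <;> simp
    · by_cases hj' : j' = M
      · subst hj'
        refine Ch.ext ?_ (fun h => ?_)
        · rw [ins_fst_ne h0 hj, ins_fst_eq, map_zero, Ch.neg_fst, ins_fst_eq, neg_zero]
        · rw [ins_snd_ne h0 hj, ins_snd_eq, Ch.neg_snd, ins_snd_eq, ins_fst_ne h0 hj]
          split_ifs <;> simp
      · refine Ch.ext ?_ (fun h => ?_)
        · rw [ins_fst_ne h0 hj, ins_fst_ne h1 hj', Ch.neg_fst, ins_fst_ne h1 hj', ins_fst_ne h0 hj,
            ins_anticomm h0 h1 hne M]
        · rw [ins_snd_ne h0 hj, ins_snd_ne h1 hj', Ch.neg_snd, ins_snd_ne h1 hj', ins_snd_ne h0 hj,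
            map_neg, map_neg, ins_anticomm h0 h1 hne M, neg_neg]

theorem sh_ins (h0 : ZMod q) (j : ℕ) : ∀ M (x : Ch q M),
    sh M (ins h0 j M x) = ins (h0 + 1) j M (sh M x)
  | 0, _ => rfl
  | (M + 1), x => by
    by_cases hj : j = M
    · subst hj
      refine Ch.ext ?_ (fun h => ?_)
      · rw [sh_fst, ins_fst_eq, ins_fst_eq, map_zero]
      · rw [sh_snd, ins_snd_eq, ins_snd_eq, sh_fst]
        by_cases h2 : h = h0 + 1
        · rw [if_pos h2, if_pos (by rw [h2]; ring)]
        · rw [if_neg h2, if_neg (by intro h3; apply h2; rw [← h3]; ring), map_zero]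
    · refine Ch.ext ?_ (fun h => ?_)
      · rw [sh_fst, ins_fst_ne h0 hj, ins_fst_ne _ hj, sh_fst, sh_ins h0 j M]
      · rw [sh_snd, ins_snd_ne h0 hj, ins_snd_ne _ hj, sh_snd, map_neg, sh_ins h0 j M]

/-- `x` contains no vertex of type `j` other than `(h0, j)` -/
def Comp (h0 : ZMod q) (j : ℕ) : ∀ M, Ch q M → Prop
  | 0, _ => True
  | (M + 1), x => if j = M then ∀ h, h ≠ h0 → x.2 h = 0
      else Comp h0 j M x.1 ∧ ∀ h, Comp h0 j M (x.2 h)

theorem comp_eq (h0 : ZMod q) (M : ℕ) (x : Ch q (M + 1)) :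
    Comp h0 M (M + 1) x ↔ ∀ h, h ≠ h0 → x.2 h = 0 := by
  show (if M = M then _ else _) ↔ _
  rw [if_pos rfl]

theorem comp_ne (h0 : ZMod q) {j M : ℕ} (hj : j ≠ M) (x : Ch q (M + 1)) :
    Comp h0 j (M + 1) x ↔ Comp h0 j M x.1 ∧ ∀ h, Comp h0 j M (x.2 h) := by
  show (if j = M then _ else _) ↔ _
  rw [if_neg hj]

theorem comp_zero (h0 : ZMod q) (j : ℕ) : ∀ M, Comp h0 j M (0 : Ch q M)
  | 0 => trivial
  | (M + 1) => by
    by_cases hj : j = M
    · subst hj; rw [comp_eq]; intro h _; rfl
    · rw [comp_ne h0 hj]; exact ⟨comp_zero h0 j M, fun h => comp_zero h0 j M⟩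

theorem comp_neg (h0 : ZMod q) (j : ℕ) : ∀ M (x : Ch q M), Comp h0 j M x → Comp h0 j M (-x)
  | 0, _, _ => trivial
  | (M + 1), x, hx => by
    by_cases hj : j = M
    · subst hj; rw [comp_eq] at hx ⊢; intro h hh; rw [Ch.neg_snd, hx h hh, neg_zero]
    · rw [comp_ne h0 hj] at hx ⊢
      exact ⟨comp_neg h0 j M _ hx.1, fun h => comp_neg h0 j M _ (hx.2 h)⟩

theorem comp_emp (h0 : ZMod q) (j : ℕ) : ∀ M, Comp h0 j M (emp M : Ch q M)
  | 0 => trivial
  | (M + 1) => by
    by_cases hj : j = M
    · subst hj; rw [comp_eq]; intro h _; rfl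
    · rw [comp_ne h0 hj]; exact ⟨comp_emp h0 j M, fun h => comp_zero h0 j M⟩

theorem comp_ins (h0 h1 : ZMod q) (j j' : ℕ) (hc : j = j' → h0 = h1) : ∀ M (x : Ch q M),
    Comp h0 j M x → Comp h0 j M (ins h1 j' M x)
  | 0, _, _ => trivial
  | (M + 1), x, hx => by
    by_cases hj : j = M
    · subst hj
      rw [comp_eq] at hx ⊢
      intro h hh
      by_cases hj' : j' = j
      · subst hj'
        rw [ins_snd_eq, if_neg]
        rw [← hc rfl]; exact hh
      · rw [ins_snd_ne h1 hj', hx h hh, map_zero, neg_zero]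
    · rw [comp_ne h0 hj] at hx ⊢
      by_cases hj' : j' = M
      · subst hj'
        refine ⟨by rw [ins_fst_eq]; exact comp_zero h0 j _, fun h => ?_⟩
        rw [ins_snd_eq]
        split_ifs
        · exact hx.1
        · exact comp_zero h0 j _
      · refine ⟨?_, fun h => ?_⟩
        · rw [ins_fst_ne h1 hj']; exact comp_ins h0 h1 j j' hc M _ hx.1
        · rw [ins_snd_ne h1 hj']; exact comp_neg h0 j M _ (comp_ins h0 h1 j j' hc M _ (hx.2 h))

/-- the boundary of a cone -/
theorem bd_ins [NeZero q] (h0 : ZMod q) (j : ℕ) : ∀ M (x : Ch q M), j < M → Comp h0 j M x →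
    bd M (ins h0 j M x) = x - ins h0 j M (bd M x)
  | 0, _, hj, _ => absurd hj (Nat.not_lt_zero _)
  | (M + 1), x, hjM, hx => by
    by_cases hj : j = M
    · subst hj
      rw [comp_eq] at hx
      refine Ch.ext ?_ (fun h => ?_)
      · rw [bd_fst, ins_fst_eq, map_zero, zero_add, sub_eq_add_neg, Ch.add_fst, Ch.neg_fst,
          ins_fst_eq, neg_zero, add_zero]
        simp [ins_snd_eq]
      · rw [bd_snd, ins_snd_eq, sub_eq_add_neg, Ch.add_snd, Ch.neg_snd, ins_snd_eq, bd_fst]
        by_cases hh : h = h0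
        · rw [if_pos hh, if_pos hh]
          have : ∑ h' : ZMod q, x.2 h' = x.2 h := by
            rw [Finset.sum_eq_single h]
            · intro b _ hb; exact hx b (by rw [← hh]; exact hb)
            · intro hn; exact absurd (Finset.mem_univ _) hn
          rw [this]; abel
        · rw [if_neg hh, if_neg hh, hx h hh, map_zero]
          simp
    · rw [comp_ne h0 hj] at hx
      have hjM' : j < M := by omega
      refine Ch.ext ?_ (fun h => ?_)
      · rw [bd_fst, ins_fst_ne h0 hj, sub_eq_add_neg, Ch.add_fst, Ch.neg_fst, ins_fst_ne h0 hj,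
          bd_fst, map_add, bd_ins h0 j M x.1 hjM' hx.1, map_sum]
        simp only [ins_snd_ne h0 hj, Finset.sum_neg_distrib]
        abel
      · rw [bd_snd, ins_snd_ne h0 hj, sub_eq_add_neg, Ch.add_snd, Ch.neg_snd, ins_snd_ne h0 hj,
          bd_snd, map_neg, map_neg, bd_ins h0 j M (x.2 h) hjM' (hx.2 h)]
        abel

/-! ### exactness -/

/-- iterates of the action, summed -/
noncomputable def Nm (q : ℕ) {A : Type*} [AddCommGroup A] (f : A →+ A) (x : A) : A :=
  ∑ s ∈ Finset.range q, f^[s] x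

theorem iterate_map_zero' {A : Type*} [AddCommGroup A] (f : A →+ A) (n : ℕ) : f^[n] 0 = 0 := by
  induction n with
  | zero => rfl
  | succ n ih => rw [Function.iterate_succ_apply', ih, map_zero]

theorem iterate_map_add' {A : Type*} [AddCommGroup A] (f : A →+ A) (n : ℕ) (x y : A) :
    f^[n] (x + y) = f^[n] x + f^[n] y := by
  induction n with
  | zero => rfl
  | succ n ih => rw [Function.iterate_succ_apply', ih, map_add]; simp [Function.iterate_succ_apply']

theorem iterate_map_sum' {A ι : Type*} [AddCommGroup A] (f : A →+ A) (n : ℕ) (s : Finset ι)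
    (x : ι → A) : f^[n] (∑ i ∈ s, x i) = ∑ i ∈ s, f^[n] (x i) := by
  induction n with
  | zero => rfl
  | succ n ih => rw [Function.iterate_succ_apply', ih, map_sum]; simp [Function.iterate_succ_apply']

theorem iterate_map_neg' {A : Type*} [AddCommGroup A] (f : A →+ A) (n : ℕ) (x : A) :
    f^[n] (-x) = -f^[n] x := by
  induction n with
  | zero => rfl
  | succ n ih => rw [Function.iterate_succ_apply', ih, map_neg]; simp [Function.iterate_succ_apply']

theorem sh_iter_fst (M : ℕ) (s : ℕ) (x : Ch q (M + 1)) :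
    ((sh (M + 1))^[s] x).1 = (sh M)^[s] x.1 := by
  induction s with
  | zero => rfl
  | succ s ih => rw [Function.iterate_succ_apply', sh_fst, ih, Function.iterate_succ_apply']

theorem sh_iter_snd (M : ℕ) (s : ℕ) (x : Ch q (M + 1)) (h : ZMod q) :
    ((sh (M + 1))^[s] x).2 h = (sh M)^[s] (x.2 (h - s)) := by
  induction s generalizing h with
  | zero => simp
  | succ s ih =>
    rw [Function.iterate_succ_apply', sh_snd, ih, Function.iterate_succ_apply']
    congr 3
    push_cast; ring_nf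

theorem sh_iter_q [NeZero q] : ∀ M (x : Ch q M), (sh M)^[q] x = x
  | 0, x => by
    have : ∀ n : ℕ, (sh 0 : Ch q 0 →+ Ch q 0)^[n] x = x := by
      intro n
      induction n with
      | zero => rfl
      | succ n ih => rw [Function.iterate_succ_apply', ih]; rfl
    exact this q
  | (M + 1), x => Ch.ext (by rw [sh_iter_fst, sh_iter_q M])
      (fun h => by rw [sh_iter_snd, sh_iter_q M]; simp)

theorem nm_fst (M : ℕ) (x : Ch q (M + 1)) : (Nm q (sh (M + 1)) x).1 = Nm q (sh M) x.1 := by
  unfold Nm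
  have : (pfst M) (∑ s ∈ Finset.range q, (sh (M + 1))^[s] x) =
      ∑ s ∈ Finset.range q, (pfst M) ((sh (M + 1))^[s] x) := map_sum _ _ _
  refine this.trans (Finset.sum_congr rfl fun s _ => ?_)
  exact sh_iter_fst M s x

theorem nm_snd (M : ℕ) (x : Ch q (M + 1)) (h : ZMod q) : (Nm q (sh (M + 1)) x).2 h =
    ∑ s ∈ Finset.range q, (sh M)^[s] (x.2 (h - s)) := by
  unfold Nm
  have : (psnd M h) (∑ s ∈ Finset.range q, (sh (M + 1))^[s] x) =
      ∑ s ∈ Finset.range q, (psnd M h) ((sh (M + 1))^[s] x) := map_sum _ _ _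
  refine this.trans (Finset.sum_congr rfl fun s _ => ?_)
  exact sh_iter_snd M s x h

/-- exactness: an invariant chain is a norm up to a multiple of the empty simplex -/
theorem exact_sub [NeZero q] : ∀ M (y : Ch q M), sh M y - y = 0 →
    ∃ (v : Ch q M) (n : ℕ), y = Nm q (sh M) v + n • emp M
  | 0, y, _ => by
    refine ⟨0, ZMod.val (show ZMod q from y), ?_⟩
    have h1 : Nm q (sh 0) (0 : Ch q 0) = 0 := by
      unfold Nm; simp
    rw [h1, zero_add]
    show (y : ZMod q) = (ZMod.val (show ZMod q from y)) • (1 : ZMod q)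
    rw [nsmul_eq_mul, mul_one, ZMod.natCast_zmod_val]
  | (M + 1), y, hy => by
    have hy1 : sh M y.1 - y.1 = 0 := by
      have := congrArg (pfst M) hy
      rw [map_sub, map_zero] at this
      exact this
    have hy2 : ∀ h, sh M (y.2 (h - 1)) = y.2 h := by
      intro h
      have := congrArg (psnd M h) hy
      rw [map_sub, map_zero] at this
      exact sub_eq_zero.1 this
    have hy3 : ∀ s : ℕ, ∀ h, (sh M)^[s] (y.2 (h - s)) = y.2 h := by
      intro s
      induction s with
      | zero => intro h; simp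
      | succ s ih =>
        intro h
        rw [Function.iterate_succ_apply']
        have : h - ((s + 1 : ℕ) : ZMod q) = (h - 1) - s := by push_cast; ring
        rw [this, ih, hy2]
    obtain ⟨v1, n, hv1⟩ := exact_sub M y.1 hy1
    let v : Ch q (M + 1) := (v1, fun h => if h = 0 then y.2 0 else 0)
    refine ⟨v, n, ?_⟩
    refine Ch.ext ?_ (fun h => ?_)
    · have e1 : (Nm q (sh (M + 1)) v + n • emp (M + 1)).1 = Nm q (sh M) v.1 + n • emp M := by
        rw [Ch.add_fst, nm_fst]
        rfl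
      rw [e1, hv1]
    · have e1 : (Nm q (sh (M + 1)) v + n • emp (M + 1)).2 h =
          ∑ s ∈ Finset.range q, (sh M)^[s] (v.2 (h - s)) := by
        rw [Ch.add_snd, nm_snd]
        have : (n • emp (M + 1) : Ch q (M + 1)).2 h = 0 := by
          have := map_nsmul (psnd M h) n (emp (M + 1) : Ch q (M + 1))
          refine this.trans ?_
          show n • (0 : Ch q M) = 0
          simp
        rw [this, add_zero]
      rw [e1]
      have hlt : ZMod.val h < q := ZMod.val_lt h
      rw [Finset.sum_eq_single (ZMod.val h)]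
      · show y.2 h = (sh M)^[ZMod.val h] (if h - (ZMod.val h : ZMod q) = 0 then y.2 0 else 0)
        rw [ZMod.natCast_zmod_val, sub_self, if_pos rfl]
        have := hy3 (ZMod.val h) h
        rw [ZMod.natCast_zmod_val, sub_self] at this
        exact this.symm
      · intro s hs hne
        show (sh M)^[s] (if h - (s : ZMod q) = 0 then y.2 0 else 0) = 0
        rw [if_neg, iterate_map_zero']
        intro h0
        apply hne
        rw [sub_eq_zero] at h0
        rw [h0, ZMod.val_natCast_of_lt (Finset.mem_range.1 hs)]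
      · intro hn
        exact absurd (Finset.mem_range.2 hlt) hn

/-- exactness: a chain of norm zero is a difference up to a multiple of the empty simplex -/
theorem exact_nm [NeZero q] : ∀ M (y : Ch q M), Nm q (sh M) y = 0 →
    ∃ (v : Ch q M) (n : ℕ), y = (sh M v - v) + n • emp M
  | 0, y, _ => by
    refine ⟨0, ZMod.val (show ZMod q from y), ?_⟩
    rw [map_zero, sub_zero, zero_add]
    show (y : ZMod q) = (ZMod.val (show ZMod q from y)) • (1 : ZMod q)
    rw [nsmul_eq_mul, mul_one, ZMod.natCast_zmod_val]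
  | (M + 1), y, hy => by
    have hy1 : Nm q (sh M) y.1 = 0 := by
      have := congrArg (pfst M) hy
      rw [map_zero] at this
      rw [← nm_fst]; exact this
    have hy2 : ∀ h, ∑ s ∈ Finset.range q, (sh M)^[s] (y.2 (h - s)) = 0 := by
      intro h
      have := congrArg (psnd M h) hy
      rw [map_zero] at this
      rw [← nm_snd]; exact this
    obtain ⟨v1, n, hv1⟩ := exact_nm M y.1 hy1
    let w : ℕ → Ch q M := fun m => -∑ s ∈ Finset.range (m + 1), (sh M)^[s] (y.2 ((m : ZMod q) - s))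
    have hw0 : w 0 = -y.2 0 := by simp [w]
    have hws : ∀ m, w (m + 1) = sh M (w m) - y.2 ((m + 1 : ℕ) : ZMod q) := by
      intro m
      simp only [w]
      rw [Finset.sum_range_succ', map_neg, map_sum]
      have : ∀ s ∈ Finset.range (m + 1), (sh M)^[s + 1] (y.2 (((m + 1 : ℕ) : ZMod q) - ((s + 1 : ℕ) : ZMod q)))
          = sh M ((sh M)^[s] (y.2 ((m : ZMod q) - s))) := by
        intro s _
        rw [Function.iterate_succ_apply']
        congr 4
        push_cast; ring_nf
      rw [Finset.sum_congr rfl this]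
      simp
      abel
    have hwq : sh M (w (q - 1)) = 0 := by
      simp only [w]
      have hq : q - 1 + 1 = q := Nat.succ_pred_eq_of_pos (Nat.pos_of_ne_zero (NeZero.ne q))
      rw [hq, hy2, neg_zero, map_zero]
    let v : Ch q (M + 1) := (v1, fun h => w (ZMod.val h))
    refine ⟨v, n, ?_⟩
    refine Ch.ext ?_ (fun h => ?_)
    · have e1 : (sh (M + 1) v - v + n • emp (M + 1)).1 = sh M v.1 - v.1 + n • emp M := by
        have h1 := map_add (pfst M) (sh (M + 1) v - v) (n • emp (M + 1) : Ch q (M + 1))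
        have h2 := map_sub (pfst M) (sh (M + 1) v) v
        have h3 := map_nsmul (pfst M) n (emp (M + 1) : Ch q (M + 1))
        refine h1.trans ?_
        rw [h2, h3]; rfl
      rw [e1, hv1]
    · have e1 : (sh (M + 1) v - v + n • emp (M + 1)).2 h = sh M (v.2 (h - 1)) - v.2 h := by
        have h1 := map_add (psnd M h) (sh (M + 1) v - v) (n • emp (M + 1) : Ch q (M + 1))
        have h2 := map_sub (psnd M h) (sh (M + 1) v) v
        have h3 := map_nsmul (psnd M h) n (emp (M + 1) : Ch q (M + 1))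
        refine h1.trans ?_
        rw [h2, h3]
        have h4 : psnd M h (emp (M + 1)) = (0 : Ch q M) := rfl
        rw [h4, smul_zero, add_zero]; rfl
      rw [e1]
      show y.2 h = sh M (w (ZMod.val (h - 1))) - w (ZMod.val h)
      rcases Nat.eq_zero_or_pos (ZMod.val h) with h0 | hpos
      · have hh : h = 0 := (ZMod.val_eq_zero h).1 h0
        have h1 : ZMod.val (h - 1) = q - 1 := by
          rw [hh, zero_sub]
          have : (-1 : ZMod q) = ((q - 1 : ℕ) : ZMod q) := by
            rw [Nat.cast_sub (Nat.one_le_iff_ne_zero.2 (NeZero.ne q))]; simp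
          rw [this, ZMod.val_natCast_of_lt]
          have := Nat.pos_of_ne_zero (NeZero.ne q)
          omega
        rw [h1, hwq, h0, hw0, hh]; simp
      · have h1 : ZMod.val (h - 1) = ZMod.val h - 1 := by
          have h2 : h - 1 = ((ZMod.val h - 1 : ℕ) : ZMod q) := by
            rw [Nat.cast_sub hpos, ZMod.natCast_zmod_val]; simp
          rw [h2, ZMod.val_natCast_of_lt]
          have := ZMod.val_lt h
          omega
        have h3 := hws (ZMod.val h - 1)
        rw [Nat.sub_add_cancel hpos] at h3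
        rw [h1, h3, ZMod.natCast_zmod_val]
        abel

end Pool.Agent.H73.Avr
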