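import Mathlib

/-!
# Anti-Vietoris-Rips metric thickenings
-/

namespace Pool.Agent.H73.Avr

/-- The points of the anti-Vietoris-Rips metric thickening of a set `X` with distance function `d`
at scale `r`: finitely supported probability measures (given by their weight function) whose
support has spread at least `r`. -/
@[ext] structure AVR {X : Type} (d : X → X → ℝ) (r : ℝ) where
  /-- the weights -/
  w : X →₀ ℝ
  nonneg : ∀ x, 0 ≤ w x
  total : (w.sum fun _ a => a) = 1
  spread : ∀ x ∈ w.support, ∀ y ∈ w.support, x ≠ y → r ≤ d x y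

/-- `π` is a coupling of the finitely supported measures `μ` and `ν` -/
def IsCoupling {X : Type} (π : (X × X) →₀ ℝ) (μ ν : X →₀ ℝ) : Prop :=
  (∀ p, 0 ≤ π p) ∧ π.mapDomain Prod.fst = μ ∧ π.mapDomain Prod.snd = ν

/-- transport cost of `π` -/
noncomputable def cost {X : Type} (d : X → X → ℝ) (π : (X × X) →₀ ℝ) : ℝ :=
  π.sum fun p a => a * d p.1 p.2

/-- the 1-Wasserstein distance of finitely supported measures -/
noncomputable def W1 {X : Type} (d : X → X → ℝ) (μ ν : X →₀ ℝ) : ℝ :=
  sInf {c | ∃ π, IsCoupling π μ ν ∧ c = cost d π}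

/-- the topology of the 1-Wasserstein distance: a set is open iff it contains a `W1`-ball around
each of its points -/
noncomputable instance AVR.topology {X : Type} (d : X → X → ℝ) (r : ℝ) :
    TopologicalSpace (AVR d r) where
  IsOpen U := ∀ μ ∈ U, ∃ ε > 0, ∀ ν : AVR d r, W1 d μ.w ν.w < ε → ν ∈ U
  isOpen_univ := fun _ _ => ⟨1, one_pos, fun _ _ => trivial⟩
  isOpen_inter := by
    intro U V hU hV μ hμ
    obtain ⟨ε, hε, h1⟩ := hU μ hμ.1
    obtain ⟨ε', hε', h2⟩ := hV μ hμ.2
    exact ⟨min ε ε', lt_min hε hε', fun ν hν =>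
      ⟨h1 ν (lt_of_lt_of_le hν (min_le_left _ _)), h2 ν (lt_of_lt_of_le hν (min_le_right _ _))⟩⟩
  isOpen_sUnion := by
    intro S hS μ hμ
    obtain ⟨U, hU, hμU⟩ := hμ
    obtain ⟨ε, hε, h⟩ := hS U hU μ hμU
    exact ⟨ε, hε, fun ν hν => ⟨U, hU, h ν hν⟩⟩

/-- the unit sphere of dimension `n` -/
abbrev Sph (n : ℕ) : Type := Metric.sphere (0 : EuclideanSpace ℝ (Fin (n + 1))) 1

/-- the geodesic (great circle) distance on the unit sphere -/
noncomputable def geo (n : ℕ) (x y : Sph n) : ℝ :=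
  InnerProductGeometry.angle (x : EuclideanSpace ℝ (Fin (n + 1))) y

end Pool.Agent.H73.Avr
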