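import Pool.Agent.H73.Avr.Alg

/-!
# Chains of tuples of labels and the descent argument
-/

namespace Pool.Agent.H73.Avr

variable {q : ℕ}

/-- the chain of a tuple of labels -/
noncomputable def tup (M : ℕ) : List (ZMod q × ℕ) → Ch q M
  | [] => emp M
  | (u :: σ) => ins u.1 u.2 M (tup M σ)

theorem tup_cons (M : ℕ) (u : ZMod q × ℕ) (σ : List (ZMod q × ℕ)) :
    tup M (u :: σ) = ins u.1 u.2 M (tup M σ) := rfl

/-- two labels of the same type agree -/
def Compat (u v : ZMod q × ℕ) : Prop := u.2 = v.2 → u.1 = v.1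

theorem comp_tup (M : ℕ) (u : ZMod q × ℕ) (σ : List (ZMod q × ℕ)) (h : ∀ v ∈ σ, Compat u v) :
    Comp u.1 u.2 M (tup M σ) := by
  induction σ with
  | nil => exact comp_emp _ _ _
  | cons v σ ih =>
    rw [tup_cons]
    exact comp_ins _ _ _ _ (h v (by simp)) M _ (ih fun w hw => h w (by simp [hw]))

theorem tup_eq_zero_of_mem (M : ℕ) (u : ZMod q × ℕ) (σ : List (ZMod q × ℕ))
    (h : ∀ v ∈ σ, Compat u v) (hu : u ∈ σ) : tup M (u :: σ) = 0 := by
  induction σ with
  | nil => simp at hu
  | cons v σ ih =>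
    rw [tup_cons, tup_cons]
    by_cases huv : u = v
    · subst huv; exact ins_ins _ _ _ _
    · have hne : u.2 ≠ v.2 := fun h2 => huv (Prod.ext (h v (by simp) h2) h2)
      have hmem : u ∈ σ := by
        rcases List.mem_cons.1 hu with h1 | h1
        · exact absurd h1 huv
        · exact h1
      rw [ins_anticomm _ _ hne]
      have := ih (fun w hw => h w (by simp [hw])) hmem
      rw [tup_cons] at this
      rw [this, map_zero, neg_zero]

theorem tup_eq_zero_of_not_nodup (M : ℕ) (σ : List (ZMod q × ℕ)) (h : σ.Pairwise Compat)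
    (hn : ¬ σ.Nodup) : tup M σ = 0 := by
  induction σ with
  | nil => simp at hn
  | cons v σ ih =>
    rw [List.pairwise_cons] at h
    by_cases hv : v ∈ σ
    · exact tup_eq_zero_of_mem M v σ h.1 hv
    · rw [tup_cons, ih h.2 (fun h3 => hn (List.nodup_cons.2 ⟨hv, h3⟩)), map_zero]

theorem tup_eq_zero_of_length (M : ℕ) (σ : List (ZMod q × ℕ)) (h : σ.Pairwise Compat)
    (hlt : ∀ v ∈ σ, v.2 < M) (hlen : M < σ.length) : tup M σ = 0 := by
  refine tup_eq_zero_of_not_nodup M σ h (fun hn => ?_)
  have h1 : (σ.map Prod.snd).Nodup := by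
    rw [List.Nodup, List.pairwise_map]
    exact (List.Pairwise.and h hn).imp (fun {a b} hab h2 => hab.2 (Prod.ext (hab.1 h2) h2))
  have h2 : (σ.map Prod.snd).toFinset ⊆ Finset.range M := by
    intro a ha
    rw [List.mem_toFinset, List.mem_map] at ha
    obtain ⟨v, hv, rfl⟩ := ha
    exact Finset.mem_range.2 (hlt v hv)
  have h3 := Finset.card_le_card h2
  rw [List.toFinset_card_of_nodup h1, List.length_map, Finset.card_range] at h3
  omega

/-- boundary of the chain of a compatible tuple -/
theorem bd_tup_cons [NeZero q] (M : ℕ) (u : ZMod q × ℕ) (σ : List (ZMod q × ℕ)) (hu : u.2 < M)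
    (h : ∀ v ∈ σ, Compat u v) :
    bd M (tup M (u :: σ)) = tup M σ - ins u.1 u.2 M (bd M (tup M σ)) := by
  rw [tup_cons, bd_ins u.1 u.2 M (tup M σ) hu (comp_tup M u σ h)]

theorem sh_tup (M : ℕ) (σ : List (ZMod q × ℕ)) :
    sh M (tup M σ) = tup M (σ.map fun u => (u.1 + 1, u.2)) := by
  induction σ with
  | nil => exact sh_emp M
  | cons u σ ih => rw [tup_cons, List.map_cons, tup_cons, sh_ins, ih]

theorem bd_sh_iter [NeZero q] (M s : ℕ) (x : Ch q M) : bd M ((sh M)^[s] x) = (sh M)^[s] (bd M x) := by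
  induction s with
  | zero => rfl
  | succ s ih => rw [Function.iterate_succ_apply', Function.iterate_succ_apply', ← sh_bd, ih]

theorem bd_nm [NeZero q] (M : ℕ) (x : Ch q M) : bd M (Nm q (sh M) x) = Nm q (sh M) (bd M x) := by
  unfold Nm
  rw [map_sum]
  exact Finset.sum_congr rfl fun s _ => bd_sh_iter M s x

theorem nm_add (M : ℕ) (x y : Ch q M) : Nm q (sh M) (x + y) = Nm q (sh M) x + Nm q (sh M) y := by
  unfold Nm
  rw [← Finset.sum_add_distrib]
  exact Finset.sum_congr rfl fun s _ => iterate_map_add' _ _ _ _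

theorem e0_nm (M : ℕ) (x : Ch q M) : e0 M (Nm q (sh M) x) = 0 := by
  unfold Nm
  rw [map_sum]
  have : ∀ s, e0 M ((sh M)^[s] x) = e0 M x := by
    intro s
    induction s with
    | zero => rfl
    | succ s ih => rw [Function.iterate_succ_apply', e0_sh, ih]
  simp [this]

/-- **Descent.** There is no sequence of chains as in the minimal resolution of `ℤ/q` which
vanishes in degree `M`. -/
theorem descent [NeZero q] (hq : 1 < q) (M : ℕ) (ε : ℕ → Ch q M) (hM : ε M = 0)
    (h0 : bd M (ε 0) = emp M)
    (heven : ∀ k, k < M → Even k → bd M (ε (k + 1)) = -(sh M (ε k) - ε k))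
    (hodd : ∀ k, k < M → Odd k → bd M (ε (k + 1)) = -Nm q (sh M) (ε k)) : False := by
  have : Fact (1 < q) := ⟨hq⟩
  have hemp : (emp M : Ch q M) ≠ 0 := by
    intro h
    have := congrArg (e0 M) h
    rw [e0_emp, map_zero] at this
    exact one_ne_zero this
  have hMpos : 0 < M := by
    rcases Nat.eq_zero_or_pos M with h | h
    · subst h
      rw [hM, map_zero] at h0
      exact absurd h0.symm hemp
    · exact h
  have hbe : ∀ n : ℕ, bd M (n • emp M : Ch q M) = 0 := by
    intro n; rw [map_nsmul, bd_emp, smul_zero]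
  have key : ∀ i, i < M → ∃ w : Ch q M,
      (Even (M - 1 - i) → sh M (ε (M - 1 - i) + bd M w) - (ε (M - 1 - i) + bd M w) = 0) ∧
      (Odd (M - 1 - i) → Nm q (sh M) (ε (M - 1 - i) + bd M w) = 0) := by
    intro i
    induction i with
    | zero =>
      intro _
      refine ⟨0, fun he => ?_, fun ho => ?_⟩
      · have := heven (M - 1 - 0) (by omega) he
        rw [show M - 1 - 0 + 1 = M by omega, hM, map_zero] at this
        rw [map_zero, add_zero]
        exact neg_eq_zero.1 this.symm
      · have := hodd (M - 1 - 0) (by omega) ho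
        rw [show M - 1 - 0 + 1 = M by omega, hM, map_zero] at this
        rw [map_zero, add_zero]
        exact neg_eq_zero.1 this.symm
    | succ i ih =>
      intro hi
      obtain ⟨w, hwe, hwo⟩ := ih (by omega)
      set k := M - 1 - (i + 1) with hk
      have hk1 : M - 1 - i = k + 1 := by omega
      rw [hk1] at hwe hwo
      rcases Nat.even_or_odd k with he | ho
      · have ho' : Odd (k + 1) := he.add_one
        obtain ⟨v, n, hv⟩ := exact_nm M _ (hwo ho')
        refine ⟨v, fun _ => ?_, fun h => absurd he (Nat.not_even_iff_odd.2 h)⟩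
        have h1 := congrArg (bd M) hv
        rw [map_add, map_add, bd_bd, add_zero, hbe, add_zero, heven k (by omega) he, map_sub,
          ← sh_bd] at h1
        rw [map_add]
        calc sh M (ε k) + sh M (bd M v) - (ε k + bd M v)
            = (sh M (bd M v) - bd M v) + (sh M (ε k) - ε k) := by abel
          _ = 0 := by rw [← h1]; abel
      · have he' : Even (k + 1) := ho.add_one
        obtain ⟨v, n, hv⟩ := exact_sub M _ (hwe he')
        refine ⟨v, fun h => absurd h (Nat.not_even_iff_odd.2 ho), fun _ => ?_⟩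
        have h1 := congrArg (bd M) hv
        rw [map_add, map_add, bd_bd, add_zero, hbe, add_zero, hodd k (by omega) ho, bd_nm] at h1
        rw [nm_add, ← h1]
        abel
  obtain ⟨w, hwe, -⟩ := key (M - 1) (by omega)
  rw [Nat.sub_self] at hwe
  obtain ⟨v, n, hv⟩ := exact_sub M _ (hwe (by decide))
  have h1 := congrArg (bd M) hv
  rw [map_add, map_add, bd_bd, add_zero, hbe, add_zero, h0, bd_nm] at h1
  have h2 := congrArg (e0 M) h1
  rw [e0_emp, e0_nm] at h2
  exact one_ne_zero h2

end Pool.Agent.H73.Avr
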