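import Mathlib

/-!
# Labels of nonzero complex numbers by `ℤ/q`
-/

namespace Pool.Agent.H73.Avr

open Complex

/-- normalised argument -/
noncomputable def ua (q : ℕ) (z : ℂ) : ℝ := q * Complex.arg z / (2 * Real.pi)

/-- type of a real number: near an integer or near a half integer -/
noncomputable def tp (u : ℝ) : ℕ := if |u - round u| ≤ 1 / 4 then 0 else 1

/-- the integer attached to a real number -/
noncomputable def nn (u : ℝ) : ℤ := round (u - tp u / 2)

theorem tp_lt (u : ℝ) : tp u < 2 := by unfold tp; split_ifs <;> norm_num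

theorem tp_add_int (u : ℝ) (m : ℤ) : tp (u + m) = tp u := by
  unfold tp
  rw [round_add_intCast]
  push_cast
  rw [add_sub_add_right_eq_sub]

theorem nn_add_int (u : ℝ) (m : ℤ) : nn (u + m) = nn u + m := by
  unfold nn
  rw [tp_add_int, add_sub_right_comm, round_add_intCast]

theorem nn_spec (u : ℝ) : |u - tp u / 2 - nn u| ≤ 1 / 4 := by
  unfold nn
  by_cases h : |u - round u| ≤ 1 / 4
  · have : tp u = 0 := by unfold tp; rw [if_pos h]
    rw [this]; simpa using h
  · have h1 : tp u = 1 := by unfold tp; rw [if_neg h]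
    rw [h1]
    push Not at h
    have h2 := abs_sub_round u
    push_cast
    rcases le_or_gt 0 (u - round u) with hp | hn
    · rw [abs_of_nonneg hp] at h h2
      refine (round_le (u - 1 / 2) (round u)).trans ?_
      rw [abs_le]; constructor <;> linarith
    · rw [abs_of_neg hn] at h h2
      refine (round_le (u - 1 / 2) (round u - 1)).trans ?_
      push_cast
      rw [abs_le]; constructor <;> linarith

/-- two close numbers of the same type have the same integer -/
theorem nn_eq {u v : ℝ} (m : ℤ) (ht : tp u = tp v) (h : |u - v - m| < 1 / 2) :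
    nn u = nn v + m := by
  have h1 := nn_spec u
  have h2 := nn_spec v
  rw [ht] at h1
  have h3 : |((nn u - (nn v + m) : ℤ) : ℝ)| < 1 := by
    push_cast
    rw [abs_le] at h1 h2
    rw [abs_lt] at h ⊢
    constructor <;> linarith [h1.1, h1.2, h2.1, h2.2, h.1, h.2]
  have h4 : |nn u - (nn v + m)| < 1 := by
    rw [← Int.cast_abs] at h3
    exact_mod_cast h3
  have := Int.abs_lt_one_iff.1 h4
  omega

/-- the root of unity -/
noncomputable def zt (q : ℕ) : ℂ := Complex.exp (((2 * Real.pi / q : ℝ) : ℂ) * Complex.I)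

theorem norm_zt (q : ℕ) : ‖zt q‖ = 1 := Complex.norm_exp_ofReal_mul_I _

theorem zt_pow (q : ℕ) (k : ℕ) :
    zt q ^ k = Complex.exp (((2 * Real.pi * k / q : ℝ) : ℂ) * Complex.I) := by
  rw [zt, ← Complex.exp_nat_mul]
  congr 1
  push_cast; ring

theorem zt_pow_q {q : ℕ} (hq : 0 < q) : zt q ^ q = 1 := by
  have hq' : (q : ℝ) ≠ 0 := by exact_mod_cast hq.ne'
  rw [zt_pow]
  have : 2 * Real.pi * (q : ℝ) / q = 2 * Real.pi := by field_simp
  rw [this]
  push_cast
  exact Complex.exp_two_pi_mul_I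

theorem ua_mul {q : ℕ} (hq : 0 < q) (k : ℕ) {z : ℂ} (hz : z ≠ 0) :
    ∃ m : ℤ, ua q (zt q ^ k * z) = ua q z + ((k : ℤ) + q * m : ℤ) := by
  have hq' : (q : ℝ) ≠ 0 := by exact_mod_cast hq.ne'
  have hpi := Real.pi_pos
  have h1 : zt q ^ k * z = (‖z‖ : ℂ) *
      Complex.exp (((Complex.arg z + 2 * Real.pi * k / q : ℝ) : ℂ) * Complex.I) := by
    rw [zt_pow]
    conv_lhs => rw [← Complex.norm_mul_exp_arg_mul_I z]
    rw [mul_comm, mul_assoc, ← Complex.exp_add]
    congr 2
    push_cast; ring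
  have h2 : Complex.arg (zt q ^ k * z) = toIocMod Real.two_pi_pos (-Real.pi)
      (Complex.arg z + 2 * Real.pi * k / q) := by
    rw [h1, Complex.arg_real_mul _ (norm_pos_iff.2 hz), Complex.arg_exp_mul_I]
  refine ⟨-toIocDiv Real.two_pi_pos (-Real.pi) (Complex.arg z + 2 * Real.pi * k / q), ?_⟩
  unfold ua
  rw [h2, toIocMod, zsmul_eq_mul]
  push_cast
  field_simp
  ring

theorem ua_local {q : ℕ} (hq : 0 < q) {z0 : ℂ} (hz0 : z0 ≠ 0) : ∃ V : Set ℂ, IsOpen V ∧ z0 ∈ V ∧
    ∀ y ∈ V, ∀ z ∈ V, ∃ m : ℤ, |ua q y - ua q z - ((q : ℤ) * m : ℤ)| < 1 / 2 := by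
  have hq' : (0 : ℝ) < q := by exact_mod_cast hq
  have hpi := Real.pi_pos
  have hcont : ContinuousAt (fun p : ℂ × ℂ => Complex.arg (p.1 / p.2)) (z0, z0) := by
    have h1 : ContinuousAt (fun p : ℂ × ℂ => p.1 / p.2) (z0, z0) :=
      continuousAt_fst.div continuousAt_snd hz0
    refine ContinuousAt.comp (g := Complex.arg) ?_ h1
    apply Complex.continuousAt_arg
    show z0 / z0 ∈ _
    rw [div_self hz0]
    exact Complex.one_mem_slitPlane
  have h0 : Complex.arg (z0 / z0) = 0 := by rw [div_self hz0, Complex.arg_one]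
  have hev : ∀ᶠ p : ℂ × ℂ in nhds (z0, z0), |Complex.arg (p.1 / p.2)| < Real.pi / q ∧ p.1 ≠ 0 ∧ p.2 ≠ 0 := by
    refine Filter.Eventually.and ?_ (Filter.Eventually.and ?_ ?_)
    · have := hcont.abs
      have h3 : |Complex.arg (z0 / z0)| < Real.pi / q := by rw [h0, abs_zero]; positivity
      exact this.eventually_lt continuousAt_const h3
    · exact continuousAt_fst.eventually_ne hz0
    · exact continuousAt_snd.eventually_ne hz0
  rw [Filter.eventually_iff, mem_nhds_prod_iff'] at hev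
  obtain ⟨V1, V2, h1o, h1m, h2o, h2m, hsub⟩ := hev
  refine ⟨V1 ∩ V2, h1o.inter h2o, ⟨h1m, h2m⟩, fun y hy z hz => ?_⟩
  obtain ⟨harg, hy0, hz0'⟩ := hsub (Set.mk_mem_prod hy.1 hz.2)
  simp only at harg hy0 hz0'
  have h4 := Complex.arg_mul_coe_angle (div_ne_zero hy0 hz0') hz0'
  rw [div_mul_cancel₀ _ hz0', ← Real.Angle.coe_add, Real.Angle.angle_eq_iff_two_pi_dvd_sub] at h4
  obtain ⟨m, hm⟩ := h4
  refine ⟨m, ?_⟩
  have h5 : ua q y - ua q z - ((q : ℤ) * m : ℤ) = q * Complex.arg (y / z) / (2 * Real.pi) := by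
    unfold ua
    have : Complex.arg y = Complex.arg (y / z) + Complex.arg z + 2 * Real.pi * m := by linarith
    rw [this]
    push_cast
    field_simp
    ring
  rw [h5, abs_div, abs_mul, abs_of_pos hq', abs_of_pos (by positivity : 0 < 2 * Real.pi),
    div_lt_iff₀ (by positivity)]
  rw [lt_div_iff₀ hq'] at harg
  nlinarith

end Pool.Agent.H73.Avr
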