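import Pool.Agent.H73.Avr.Defs

/-!
# Complex coordinates and rotations of odd dimensional spheres
-/

namespace Pool.Agent.H73.Avr

open Complex

section
variable {n a : ℕ} (h : n + 1 = a * 2)

/-- pairing of the coordinates -/
def eqv : Fin (n + 1) ≃ Fin a × Fin 2 := (finCongr h).trans finProdFinEquiv.symm

/-- complex coordinates -/
noncomputable def zc (i : Fin a) (x : EuclideanSpace ℝ (Fin (n + 1))) : ℂ :=
  ⟨x ((eqv h).symm (i, 0)), x ((eqv h).symm (i, 1))⟩

/-- multiplication by a complex number in all coordinates -/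
noncomputable def rot (ζ : ℂ) (x : EuclideanSpace ℝ (Fin (n + 1))) :
    EuclideanSpace ℝ (Fin (n + 1)) :=
  WithLp.toLp 2 (fun j => if (eqv h j).2 = 0 then (ζ * zc h (eqv h j).1 x).re
    else (ζ * zc h (eqv h j).1 x).im)

theorem zc_rot (ζ : ℂ) (i : Fin a) (x : EuclideanSpace ℝ (Fin (n + 1))) :
    zc h i (rot h ζ x) = ζ * zc h i x := by
  apply Complex.ext
  · show (rot h ζ x) ((eqv h).symm (i, 0)) = _
    simp [rot]
  · show (rot h ζ x) ((eqv h).symm (i, 1)) = _
    simp [rot]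

theorem zc_injective {x y : EuclideanSpace ℝ (Fin (n + 1))} (hxy : ∀ i, zc h i x = zc h i y) :
    x = y := by
  ext j
  obtain ⟨⟨i, b⟩, rfl⟩ := (eqv h).symm.surjective j
  have h1 := hxy i
  have h2 := congrArg Complex.re h1
  have h3 := congrArg Complex.im h1
  fin_cases b
  · exact h2
  · exact h3

theorem inner_eq (x y : EuclideanSpace ℝ (Fin (n + 1))) :
    inner ℝ x y = ∑ i, (zc h i x * (starRingEnd ℂ) (zc h i y)).re := by
  rw [PiLp.inner_apply, ← Equiv.sum_comp (eqv h).symm, Fintype.sum_prod_type]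
  refine Finset.sum_congr rfl fun i _ => ?_
  rw [Fin.sum_univ_two]
  simp only [zc, Complex.mul_re, Complex.conj_re, Complex.conj_im]
  simp [mul_comm]

theorem inner_rot {ζ : ℂ} (hζ : ‖ζ‖ = 1) (x y : EuclideanSpace ℝ (Fin (n + 1))) :
    inner ℝ (rot h ζ x) (rot h ζ y) = inner ℝ x y := by
  rw [inner_eq h, inner_eq h]
  refine Finset.sum_congr rfl fun i _ => ?_
  rw [zc_rot, zc_rot, map_mul]
  have h1 : ζ * (starRingEnd ℂ) ζ = 1 := by
    rw [Complex.mul_conj, Complex.normSq_eq_norm_sq, hζ]; simp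
  have h2 : ζ * zc h i x * ((starRingEnd ℂ) ζ * (starRingEnd ℂ) (zc h i y)) =
      (ζ * (starRingEnd ℂ) ζ) * (zc h i x * (starRingEnd ℂ) (zc h i y)) := by ring
  rw [h2, h1, one_mul]

theorem norm_rot {ζ : ℂ} (hζ : ‖ζ‖ = 1) (x : EuclideanSpace ℝ (Fin (n + 1))) :
    ‖rot h ζ x‖ = ‖x‖ := by
  have h1 := inner_rot h hζ x x
  rw [real_inner_self_eq_norm_sq, real_inner_self_eq_norm_sq] at h1
  exact (sq_eq_sq₀ (norm_nonneg _) (norm_nonneg _)).1 h1

theorem angle_rot {ζ : ℂ} (hζ : ‖ζ‖ = 1) (x y : EuclideanSpace ℝ (Fin (n + 1))) :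
    InnerProductGeometry.angle (rot h ζ x) (rot h ζ y) = InnerProductGeometry.angle x y := by
  unfold InnerProductGeometry.angle
  rw [inner_rot h hζ, norm_rot h hζ, norm_rot h hζ]

/-- rotation of the sphere -/
noncomputable def srot {ζ : ℂ} (hζ : ‖ζ‖ = 1) (x : Sph n) : Sph n :=
  ⟨rot h ζ x, by rw [mem_sphere_zero_iff_norm, norm_rot h hζ, mem_sphere_zero_iff_norm.1 x.2]⟩

theorem geo_srot {ζ : ℂ} (hζ : ‖ζ‖ = 1) (x y : Sph n) :
    geo n (srot h hζ x) (srot h hζ y) = geo n x y := angle_rot h hζ x y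

theorem zc_iter {ζ : ℂ} (hζ : ‖ζ‖ = 1) (s : ℕ) (x : Sph n) (i : Fin a) :
    zc h i ((srot h hζ)^[s] x : Sph n) = ζ ^ s * zc h i x := by
  induction s with
  | zero => simp
  | succ s ih =>
    rw [Function.iterate_succ_apply']
    show zc h i (rot h ζ ((srot h hζ)^[s] x : Sph n)) = _
    rw [zc_rot, ih, pow_succ]; ring

theorem srot_iter {ζ : ℂ} (hζ : ‖ζ‖ = 1) {q : ℕ} (hq : ζ ^ q = 1) : (srot h hζ)^[q] = id := by
  funext x
  apply Subtype.ext
  apply zc_injective h
  intro i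
  rw [zc_iter, hq, one_mul]; rfl

theorem srot_injective {ζ : ℂ} (hζ : ‖ζ‖ = 1) : Function.Injective (srot h hζ) := by
  intro x y hxy
  apply Subtype.ext
  apply zc_injective h
  intro i
  have h1 : zc h i (rot h ζ x) = zc h i (rot h ζ y) := by
    have := congrArg Subtype.val hxy
    exact congrArg (zc h i) this
  rw [zc_rot, zc_rot] at h1
  have hne : ζ ≠ 0 := by
    intro h0; rw [h0] at hζ; simp at hζ
  exact mul_left_cancel₀ hne h1

theorem sum_zc (x : Sph n) : ∑ i, zc h i x * (starRingEnd ℂ) (zc h i x) = 1 := by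
  have h1 := inner_eq h (x : EuclideanSpace ℝ (Fin (n + 1))) x
  rw [real_inner_self_eq_norm_sq, mem_sphere_zero_iff_norm.1 x.2] at h1
  have h2 : ∀ i, zc h i x * (starRingEnd ℂ) (zc h i x) =
      (((zc h i x * (starRingEnd ℂ) (zc h i x)).re : ℝ) : ℂ) := by
    intro i
    rw [Complex.mul_conj, Complex.ofReal_re]
  rw [Finset.sum_congr rfl fun i _ => h2 i, ← Complex.ofReal_sum, ← h1]
  simp

theorem norm_zc_le (x : Sph n) (i : Fin a) : ‖zc h i x‖ ≤ 1 := by
  have h1 := inner_eq h (x : EuclideanSpace ℝ (Fin (n + 1))) x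
  rw [real_inner_self_eq_norm_sq, mem_sphere_zero_iff_norm.1 x.2] at h1
  have h2 : ∀ i, (zc h i x * (starRingEnd ℂ) (zc h i x)).re = ‖zc h i x‖ ^ 2 := by
    intro i
    rw [Complex.mul_conj, Complex.ofReal_re, Complex.normSq_eq_norm_sq]
  simp only [h2] at h1
  have h3 : ‖zc h i x‖ ^ 2 ≤ ∑ i, ‖zc h i x‖ ^ 2 :=
    Finset.single_le_sum (f := fun i => ‖zc h i x‖ ^ 2) (fun j _ => sq_nonneg _) (Finset.mem_univ i)
  nlinarith [norm_nonneg (zc h i x)]

theorem norm_zc_sub_le (x y : EuclideanSpace ℝ (Fin (n + 1))) (i : Fin a) :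
    ‖zc h i x - zc h i y‖ ≤ ‖x - y‖ := by
  have h0 : zc h i x - zc h i y = zc h i (x - y) := by
    apply Complex.ext <;> simp [zc]
  rw [h0]
  have h1 := inner_eq h (x - y) (x - y)
  rw [real_inner_self_eq_norm_sq] at h1
  have h2 : ∀ i, (zc h i (x - y) * (starRingEnd ℂ) (zc h i (x - y))).re = ‖zc h i (x - y)‖ ^ 2 := by
    intro i
    rw [Complex.mul_conj, Complex.ofReal_re, Complex.normSq_eq_norm_sq]
  simp only [h2] at h1
  have h3 : ‖zc h i (x - y)‖ ^ 2 ≤ ∑ i, ‖zc h i (x - y)‖ ^ 2 :=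
    Finset.single_le_sum (f := fun i => ‖zc h i (x - y)‖ ^ 2) (fun j _ => sq_nonneg _)
      (Finset.mem_univ i)
  rw [← h1] at h3
  exact (sq_le_sq₀ (norm_nonneg _) (norm_nonneg _)).1 h3

end

theorem norm_sub_sq_eq {n : ℕ} (x y : Sph n) :
    ‖(x : EuclideanSpace ℝ (Fin (n + 1))) - y‖ ^ 2 = 2 - 2 * Real.cos (geo n x y) := by
  have h1 := @norm_sub_sq_real _ _ _ (x : EuclideanSpace ℝ (Fin (n + 1))) y
  have hx := mem_sphere_zero_iff_norm.1 x.2
  have hy := mem_sphere_zero_iff_norm.1 y.2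
  rw [h1, geo, InnerProductGeometry.cos_angle, hx, hy]
  ring

theorem chord_le_geo {n : ℕ} (x y : Sph n) :
    ‖(x : EuclideanSpace ℝ (Fin (n + 1))) - y‖ ≤ geo n x y := by
  have h1 := norm_sub_sq_eq x y
  have h2 := Real.one_sub_sq_div_two_le_cos (x := geo n x y)
  have h3 : 0 ≤ geo n x y := InnerProductGeometry.angle_nonneg _ _
  have h4 := norm_nonneg ((x : EuclideanSpace ℝ (Fin (n + 1))) - y)
  nlinarith

theorem geo_nonneg {n : ℕ} (x y : Sph n) : 0 ≤ geo n x y := InnerProductGeometry.angle_nonneg _ _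

/-- packing bound -/
theorem exists_packing (n : ℕ) {r : ℝ} (hr : 0 < r) : ∃ p : ℕ, ∀ s : Finset (Sph n),
    (∀ x ∈ s, ∀ y ∈ s, x ≠ y → r ≤ geo n x y) → s.card ≤ p := by
  classical
  have hcont : ∀ x : Sph n, Continuous (fun y : Sph n => geo n x y) := by
    intro x
    have : (fun y : Sph n => geo n x y) = fun y : Sph n =>
        Real.arccos (inner ℝ (x : EuclideanSpace ℝ (Fin (n + 1))) (y : EuclideanSpace ℝ (Fin (n + 1)))) := by
      funext y
      rw [geo, InnerProductGeometry.angle, mem_sphere_zero_iff_norm.1 x.2,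
        mem_sphere_zero_iff_norm.1 y.2]
      simp
    rw [this]
    exact Real.continuous_arccos.comp (by fun_prop)
  have hopen : ∀ x : Sph n, IsOpen {y : Sph n | geo n x y < r / 2} := fun x =>
    isOpen_lt (hcont x) continuous_const
  have hself : ∀ x : Sph n, geo n x x = 0 := by
    intro x
    apply InnerProductGeometry.angle_self
    intro h0
    have := mem_sphere_zero_iff_norm.1 x.2
    rw [h0, norm_zero] at this
    exact zero_ne_one this
  obtain ⟨t, ht⟩ := isCompact_univ.elim_finite_subcover (fun x : Sph n => {y | geo n x y < r / 2})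
    hopen (fun x _ => Set.mem_iUnion.2 ⟨x, by
      show geo n x x < r / 2
      rw [hself]; positivity⟩)
  refine ⟨t.card, fun s hs => ?_⟩
  have hch : ∀ x : Sph n, ∃ c ∈ t, geo n c x < r / 2 := by
    intro x
    have := ht (Set.mem_univ x)
    rw [Set.mem_iUnion₂] at this
    obtain ⟨c, hc, hcx⟩ := this
    exact ⟨c, hc, hcx⟩
  choose c hct hc using hch
  refine Finset.card_le_card_of_injOn c (fun x _ => hct x) ?_
  intro x hx y hy hxy
  by_contra hne
  have h1 := hs x hx y hy hne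
  have h2 : geo n x y ≤ geo n x (c x) + geo n (c x) y :=
    InnerProductGeometry.angle_le_angle_add_angle _ _ _
  have h3 : geo n x (c x) = geo n (c x) x := InnerProductGeometry.angle_comm _ _
  have h4 := hc x
  have h5 := hc y
  have hxy' : c x = c y := hxy
  rw [← hxy'] at h5
  linarith

end Pool.Agent.H73.Avr
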