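import Pool.Agent.H73.Avr.Measure
import Pool.Agent.H73.Avr.Sphere

/-!
# Nonvanishing of the moments of a point of the thickening
-/

namespace Pool.Agent.H73.Avr

open Complex

variable {n a : ℕ} (h : n + 1 = a * 2)

/-- monomials in the complex coordinates -/
noncomputable def mon {m : ℕ} (φ : Fin m → Fin a) (x : Sph n) : ℂ := ∏ i, zc h (φ i) x

theorem integ_add {X : Type} (f g : X → ℂ) (μ : X →₀ ℝ) :
    integ (f + g) μ = integ f μ + integ g μ := by
  unfold integ
  rw [← Finsupp.sum_add]
  refine Finsupp.sum_congr fun x _ => ?_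
  rw [Pi.add_apply]; ring

theorem integ_smul {X : Type} (c : ℂ) (f : X → ℂ) (μ : X →₀ ℝ) :
    integ (c • f) μ = c * integ f μ := by
  unfold integ
  rw [Finsupp.mul_sum]
  refine Finsupp.sum_congr fun x _ => ?_
  rw [Pi.smul_apply, smul_eq_mul]; ring

/-- functions spanned by monomials of degree `1..k` -/
noncomputable def Sk (k : ℕ) : Submodule ℂ (Sph n → ℂ) :=
  Submodule.span ℂ {f | ∃ m, m < k ∧ ∃ φ : Fin (m + 1) → Fin a, f = mon h φ}

theorem Sk_mono {k l : ℕ} (hkl : k ≤ l) : Sk h k ≤ Sk h l := by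
  apply Submodule.span_mono
  rintro f ⟨m, hm, φ, rfl⟩
  exact ⟨m, by omega, φ, rfl⟩

/-- linear form attached to a point -/
noncomputable def bl (y x : Sph n) : ℂ := ∑ i, zc h i x * (starRingEnd ℂ) (zc h i y)

theorem bl_mem (y : Sph n) {k : ℕ} (hk : 1 ≤ k) : bl h y ∈ Sk h k := by
  have : bl h y = ∑ i, (starRingEnd ℂ) (zc h i y) • mon h (fun _ : Fin 1 => i) := by
    funext x
    rw [Finset.sum_apply]
    unfold bl
    refine Finset.sum_congr rfl fun i _ => ?_
    rw [Pi.smul_apply, smul_eq_mul, mon, Fin.prod_univ_one]; ring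
  rw [this]
  exact Submodule.sum_mem _ fun i _ => Submodule.smul_mem _ _ (Submodule.subset_span
    ⟨0, hk, _, rfl⟩)

theorem bl_mul_mem (y : Sph n) {k : ℕ} {w : Sph n → ℂ} (hw : w ∈ Sk h k) :
    bl h y * w ∈ Sk h (k + 1) := by
  unfold Sk at hw
  induction hw using Submodule.span_induction with
  | mem f hf =>
    obtain ⟨m, hm, φ, rfl⟩ := hf
    have : bl h y * mon h φ = ∑ i, (starRingEnd ℂ) (zc h i y) •
        mon h (Fin.cons i φ : Fin (m + 1 + 1) → Fin a) := by
      funext x
      rw [Finset.sum_apply, Pi.mul_apply]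
      unfold bl
      rw [Finset.sum_mul]
      refine Finset.sum_congr rfl fun i _ => ?_
      rw [Pi.smul_apply, smul_eq_mul, mon, mon, Fin.prod_univ_succ (n := m + 1)]
      simp only [Fin.cons_zero, Fin.cons_succ]
      ring
    rw [this]
    exact Submodule.sum_mem _ fun i _ => Submodule.smul_mem _ _ (Submodule.subset_span
      ⟨m + 1, by omega, _, rfl⟩)
  | zero => rw [mul_zero]; exact Submodule.zero_mem _
  | add f g _ _ hf hg => rw [mul_add]; exact Submodule.add_mem _ hf hg
  | smul c f _ hf => rw [mul_smul_comm]; exact Submodule.smul_mem _ _ hf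

theorem prod_sub_one_mem (s : Finset (Sph n)) :
    (fun x => ∏ y ∈ s, (1 - bl h y x)) - 1 ∈ Sk h s.card := by
  classical
  induction s using Finset.induction_on with
  | empty =>
    have : (fun x : Sph n => ∏ y ∈ (∅ : Finset (Sph n)), (1 - bl h y x)) - 1 = 0 := by
      funext x; simp
    rw [this]; exact Submodule.zero_mem _
  | insert y s hy ih =>
    rw [Finset.card_insert_of_notMem hy]
    set w := (fun x => ∏ y ∈ s, (1 - bl h y x)) - 1 with hw
    have : (fun x => ∏ y ∈ insert y s, (1 - bl h y x)) - 1 = w - bl h y - bl h y * w := by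
      funext x
      simp only [Pi.sub_apply, Pi.mul_apply, Pi.one_apply, hw, Finset.prod_insert hy]
      ring
    rw [this]
    exact Submodule.sub_mem _ (Submodule.sub_mem _ (Sk_mono h (Nat.le_succ _) ih)
      (bl_mem h y (by omega))) (bl_mul_mem h y ih)

/-- index set of the moments of degree `1..p` -/
abbrev Ix (p a : ℕ) : Type := Σ k : Fin p, (Fin (k + 1) → Fin a)

/-- moments -/
noncomputable def mom {p : ℕ} (J : Ix p a) (μ : Sph n →₀ ℝ) : ℂ := integ (mon h J.2) μ

theorem exists_mom_ne {r : ℝ} {p : ℕ} (μ : AVR (geo n) r) (hp : μ.w.support.card ≤ p) :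
    ∃ J : Ix p a, mom h J μ.w ≠ 0 := by
  by_contra hcon
  push Not at hcon
  have hE : ∀ f ∈ Sk h p, integ f μ.w = 0 := by
    intro f hf
    unfold Sk at hf
    induction hf using Submodule.span_induction with
    | mem f hf =>
      obtain ⟨m, hm, φ, rfl⟩ := hf
      exact hcon ⟨⟨m, hm⟩, φ⟩
    | zero => simp [integ]
    | add f g _ _ hf hg => rw [integ_add, hf, hg, add_zero]
    | smul c f _ hf => rw [integ_smul, hf, mul_zero]
  have h1 := hE _ (Sk_mono h hp (prod_sub_one_mem h μ.w.support))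
  have h2 : integ ((fun x => ∏ y ∈ μ.w.support, (1 - bl h y x)) - 1) μ.w = -1 := by
    unfold integ
    have h3 : ∀ x ∈ μ.w.support, (μ.w x : ℂ) *
        ((fun x => ∏ y ∈ μ.w.support, (1 - bl h y x)) - 1) x = -(μ.w x : ℂ) := by
      intro x hx
      have h4 : ∏ y ∈ μ.w.support, (1 - bl h y x) = 0 := by
        apply Finset.prod_eq_zero hx
        have : bl h x x = 1 := sum_zc h x
        rw [this, sub_self]
      simp only [Pi.sub_apply, Pi.one_apply, h4]
      ring
    rw [Finsupp.sum, Finset.sum_congr rfl h3, Finset.sum_neg_distrib, ← Complex.ofReal_sum]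
    have h5 : ∑ x ∈ μ.w.support, μ.w x = 1 := μ.total
    rw [h5]; simp
  rw [h2] at h1
  norm_num at h1

theorem mon_srot {ζ : ℂ} (hζ : ‖ζ‖ = 1) {m : ℕ} (φ : Fin m → Fin a) (x : Sph n) :
    mon h φ (srot h hζ x) = ζ ^ m * mon h φ x := by
  unfold mon
  have : ∀ i, zc h (φ i) (srot h hζ x) = ζ * zc h (φ i) x := fun i => zc_rot h ζ _ _
  simp only [this, Finset.prod_mul_distrib, Finset.prod_const, Finset.card_univ, Fintype.card_fin]

theorem norm_mon_le {m : ℕ} (φ : Fin m → Fin a) (x : Sph n) : ‖mon h φ x‖ ≤ 1 := by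
  unfold mon
  rw [norm_prod]
  exact Finset.prod_le_one (fun i _ => norm_nonneg _) (fun i _ => norm_zc_le h x _)

theorem mon_lipschitz {m : ℕ} (φ : Fin m → Fin a) (x y : Sph n) :
    ‖mon h φ x - mon h φ y‖ ≤ m * geo n x y := by
  induction m with
  | zero => simp [mon]
  | succ m ih =>
    have e : ∀ x : Sph n, mon h φ x = zc h (φ 0) x * mon h (fun i => φ i.succ) x := by
      intro x
      unfold mon
      rw [Fin.prod_univ_succ]
    rw [e, e]
    have h1 : zc h (φ 0) x * mon h (fun i => φ i.succ) x - zc h (φ 0) y * mon h (fun i => φ i.succ) y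
        = zc h (φ 0) x * (mon h (fun i => φ i.succ) x - mon h (fun i => φ i.succ) y) +
          (zc h (φ 0) x - zc h (φ 0) y) * mon h (fun i => φ i.succ) y := by ring
    rw [h1]
    refine (norm_add_le _ _).trans ?_
    rw [norm_mul, norm_mul]
    have h2 := ih (fun i => φ i.succ)
    have h3 := norm_zc_le h x (φ 0)
    have h4 := norm_mon_le h (fun i => φ i.succ) y
    have h5 := (norm_zc_sub_le h (x : EuclideanSpace ℝ (Fin (n + 1))) y (φ 0)).trans (chord_le_geo x y)
    have h6 := geo_nonneg x y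
    have h7 := norm_nonneg (zc h (φ 0) x)
    have h8 := norm_nonneg (mon h (fun i => φ i.succ) x - mon h (fun i => φ i.succ) y)
    have h9 := norm_nonneg (zc h (φ 0) x - zc h (φ 0) y)
    have h10 := norm_nonneg (mon h (fun i => φ i.succ) y)
    push_cast
    calc ‖zc h (φ 0) x‖ * ‖mon h (fun i => φ i.succ) x - mon h (fun i => φ i.succ) y‖ +
        ‖zc h (φ 0) x - zc h (φ 0) y‖ * ‖mon h (fun i => φ i.succ) y‖
        ≤ 1 * (m * geo n x y) + geo n x y * 1 := by gcongr
      _ = (m + 1) * geo n x y := by ring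

theorem continuous_mom {r : ℝ} {p : ℕ} (J : Ix p a) :
    Continuous (fun μ : AVR (geo n) r => mom h J μ.w) := by
  refine continuous_integ (L := (J.1 : ℕ) + 1) (by positivity) ?_
  intro x y
  have := mon_lipschitz h J.2 x y
  push_cast at this
  exact this

end Pool.Agent.H73.Avr
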