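import Pool.Agent.H73.Avr.Engine
import Pool.Agent.H73.Avr.Moments
import Pool.Agent.H73.Avr.Label

/-!
# Anti-Vietoris-Rips thickenings of odd dimensional spheres are not contractible
-/

namespace Pool.Agent.H73.Avr

theorem AVR.map_iter {X : Type} {d : X → X → ℝ} {r : ℝ} (T : X → X)
    (hT : ∀ x y, d (T x) (T y) = d x y) (hinj : Function.Injective T) (s : ℕ) (μ : AVR d r) :
    ((AVR.map T hT hinj)^[s] μ).w = μ.w.mapDomain T^[s] := by
  induction s with
  | zero => simp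
  | succ s ih =>
    rw [Function.iterate_succ_apply']
    show ((AVR.map T hT hinj)^[s] μ).w.mapDomain T = _
    rw [ih, ← Finsupp.mapDomain_comp, ← Function.iterate_succ']

theorem not_contractible {n : ℕ} (hn : Odd n) {r : ℝ} (hr : 0 < r) :
    ¬ ContractibleSpace (AVR (geo n) r) := by
  classical
  intro hc
  obtain ⟨a', ha'⟩ := hn
  have h : n + 1 = (a' + 1) * 2 := by omega
  set a := a' + 1 with ha
  obtain ⟨p, hp⟩ := exists_packing n hr
  obtain ⟨q, hqp, hqpr⟩ := Nat.exists_infinite_primes (p + 2)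
  have hF : Fact q.Prime := ⟨hqpr⟩
  have hq1 : 1 < q := hqpr.one_lt
  have hq0 : 0 < q := by omega
  have hNZ : NeZero q := ⟨by omega⟩
  have hcard : ∀ μ : AVR (geo n) r, μ.w.support.card ≤ p := fun μ => hp _ μ.spread
  have hμ0 : Nonempty (AVR (geo n) r) := inferInstance
  obtain ⟨μ0⟩ := hμ0
  have hIx : Nonempty (Ix p a) := ⟨(exists_mom_ne h μ0 (hcard μ0)).choose⟩
  let T : Sph n → Sph n := srot h (norm_zt q)
  have hT : ∀ x y, geo n (T x) (T y) = geo n x y := geo_srot h (norm_zt q)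
  have hTi : Function.Injective T := srot_injective h (norm_zt q)
  let g : AVR (geo n) r → AVR (geo n) r := AVR.map T hT hTi
  have hgc : Continuous g := continuous_map geo_nonneg T hT hTi
  have hgq : g^[q] = id := by
    funext μ
    apply AVR.ext
    rw [AVR.map_iter, srot_iter h (norm_zt q) (zt_pow_q hq0)]
    simp
  have hmom : ∀ (J : Ix p a) (μ : AVR (geo n) r),
      mom h J (g μ).w = zt q ^ ((J.1 : ℕ) + 1) * mom h J μ.w := by
    intro J μ
    unfold mom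
    rw [integ_map T hT hTi]
    have : (fun x => mon h J.2 (T x)) = zt q ^ ((J.1 : ℕ) + 1) • mon h J.2 := by
      funext x
      rw [Pi.smul_apply, smul_eq_mul]
      exact mon_srot h (norm_zt q) J.2 x
    rw [this, integ_smul]
  have hnorm : ∀ (J : Ix p a) (μ : AVR (geo n) r), ‖mom h J (g μ).w‖ = ‖mom h J μ.w‖ := by
    intro J μ
    rw [hmom, norm_mul, norm_pow, norm_zt, one_pow, one_mul]
  let am : (Ix p a → ℝ) → Ix p a := fun v => (Finite.exists_max v).choose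
  have ham : ∀ (v : Ix p a → ℝ) (i : Ix p a), v i ≤ v (am v) := fun v => (Finite.exists_max v).choose_spec
  let Jx : AVR (geo n) r → Ix p a := fun μ => am (fun J => ‖mom h J μ.w‖)
  have hJg : ∀ μ, Jx (g μ) = Jx μ := by
    intro μ
    show am (fun J => ‖mom h J (g μ).w‖) = am (fun J => ‖mom h J μ.w‖)
    congr 1
    funext J
    exact hnorm J μ
  have hJmax : ∀ μ J, ‖mom h J μ.w‖ ≤ ‖mom h (Jx μ) μ.w‖ := fun μ J => ham (fun J => ‖mom h J μ.w‖) J
  have hJpos : ∀ μ : AVR (geo n) r, 0 < ‖mom h (Jx μ) μ.w‖ := by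
    intro μ
    obtain ⟨J, hJ⟩ := exists_mom_ne h μ (hcard μ)
    exact lt_of_lt_of_le (norm_pos_iff.2 hJ) (hJmax μ J)
  let u : AVR (geo n) r → ℝ := fun μ => ua q (mom h (Jx μ) μ.w)
  let enc := Fintype.equivFin (Ix p a × Fin 2)
  let ty : AVR (geo n) r → Ix p a × Fin 2 := fun μ => (Jx μ, ⟨tp (u μ), tp_lt _⟩)
  let ℓ : AVR (geo n) r → ZMod q × ℕ := fun μ =>
    ((((Jx μ).1 : ℕ) + 1 : ZMod q)⁻¹ * (nn (u μ) : ZMod q), (enc (ty μ)).val)
  refine engine (X := AVR (geo n) r) hq1 (Fintype.card (Ix p a × Fin 2)) hgc hgq ℓ ?_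
    (fun μ => (enc (ty μ)).isLt) ?_
  · intro μ
    have hk : ((((Jx μ).1 : ℕ) + 1 : ZMod q)) ≠ 0 := by
      have h1 : (((((Jx μ).1 : ℕ) + 1 : ℕ)) : ZMod q) ≠ 0 := by
        rw [Ne, ZMod.natCast_eq_zero_iff]
        intro hdvd
        have h2 := Nat.le_of_dvd (by omega) hdvd
        have h3 := (Jx μ).1.isLt
        omega
      push_cast at h1
      exact h1
    obtain ⟨m, hm⟩ := ua_mul hq0 (((Jx μ).1 : ℕ) + 1) (z := mom h (Jx μ) μ.w)
      (norm_pos_iff.1 (hJpos μ))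
    have hu : u (g μ) = u μ + (((((Jx μ).1 : ℕ) + 1 : ℕ) : ℤ) + q * m : ℤ) := by
      show ua q (mom h (Jx (g μ)) (g μ).w) = _
      rw [hJg, hmom]
      exact hm
    have htp : tp (u (g μ)) = tp (u μ) := by rw [hu, tp_add_int]
    have hty : ty (g μ) = ty μ := by
      show (Jx (g μ), (⟨tp (u (g μ)), tp_lt _⟩ : Fin 2)) = (Jx μ, ⟨tp (u μ), tp_lt _⟩)
      rw [hJg]
      congr 1
      exact Fin.ext htp
    refine Prod.ext ?_ ?_
    · show ((((Jx (g μ)).1 : ℕ) + 1 : ZMod q))⁻¹ * (nn (u (g μ)) : ZMod q) =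
        ((((Jx μ).1 : ℕ) + 1 : ZMod q))⁻¹ * (nn (u μ) : ZMod q) + 1
      rw [hJg, hu, nn_add_int]
      push_cast
      rw [ZMod.natCast_self, zero_mul, add_zero, mul_add, inv_mul_cancel₀ hk]
    · show (enc (ty (g μ))).val = (enc (ty μ)).val
      rw [hty]
  · intro μ
    set c := ‖mom h (Jx μ) μ.w‖ with hcdef
    have hcpos : 0 < c := hJpos μ
    have hV : ∀ J : Ix p a, ∃ V : Set ℂ, IsOpen V ∧ mom h J μ.w ∈ V ∧
        ∀ y ∈ V, ∀ z ∈ V, c / 2 < ‖y‖ → c / 2 < ‖z‖ →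
          ∃ m : ℤ, |ua q y - ua q z - ((q : ℤ) * m : ℤ)| < 1 / 2 := by
      intro J
      by_cases hJ : mom h J μ.w = 0
      · refine ⟨Metric.ball 0 (c / 2), Metric.isOpen_ball, ?_, ?_⟩
        · rw [hJ]; exact Metric.mem_ball_self (by positivity)
        · intro y hy z _ h1 _
          rw [mem_ball_zero_iff] at hy
          exact absurd h1 (not_lt.2 hy.le)
      · obtain ⟨V, hVo, hVm, hVl⟩ := ua_local hq0 hJ
        exact ⟨V, hVo, hVm, fun y hy z hz _ _ => hVl y hy z hz⟩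
    choose V hVo hVm hVl using hV
    refine ⟨(⋂ J, (fun ν : AVR (geo n) r => mom h J ν.w) ⁻¹' (V J)) ∩
      {ν | c / 2 < ‖mom h (Jx μ) ν.w‖}, ?_, ?_, ?_⟩
    · refine IsOpen.inter (isOpen_iInter_of_finite fun J => (hVo J).preimage (continuous_mom h J)) ?_
      exact isOpen_lt continuous_const (continuous_mom h (Jx μ)).norm
    · refine ⟨Set.mem_iInter.2 fun J => hVm J, ?_⟩
      show c / 2 < ‖mom h (Jx μ) μ.w‖
      rw [← hcdef]; linarith
    · rintro y ⟨hy1, hy2⟩ z ⟨hz1, hz2⟩ hyz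
      have h1 : ty y = ty z := enc.injective (Fin.ext hyz)
      have h2 : Jx y = Jx z := congrArg Prod.fst h1
      have h3 : tp (u y) = tp (u z) := congrArg (fun w : Ix p a × Fin 2 => (w.2 : ℕ)) h1
      have hy3 : c / 2 < ‖mom h (Jx y) y.w‖ := lt_of_lt_of_le hy2 (hJmax y _)
      have hz3 : c / 2 < ‖mom h (Jx y) z.w‖ := by
        rw [h2]; exact lt_of_lt_of_le hz2 (hJmax z _)
      obtain ⟨m, hm⟩ := hVl (Jx y) _ (Set.mem_iInter.1 hy1 (Jx y)) _
        (Set.mem_iInter.1 hz1 (Jx y)) hy3 hz3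
      have h4 : u z = ua q (mom h (Jx y) z.w) := by
        show ua q (mom h (Jx z) z.w) = _
        rw [h2]
      have h5 : nn (u y) = nn (u z) + (q : ℤ) * m := by
        apply nn_eq _ h3
        rw [h4]
        exact hm
      show ((((Jx y).1 : ℕ) + 1 : ZMod q))⁻¹ * (nn (u y) : ZMod q) =
        ((((Jx z).1 : ℕ) + 1 : ZMod q))⁻¹ * (nn (u z) : ZMod q)
      rw [h2, h5]
      push_cast
      rw [ZMod.natCast_self, zero_mul, add_zero]

end Pool.Agent.H73.Avr
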