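import Pool.Agent.H73.Avr.Defs

/-!
# Continuity facts for the 1-Wasserstein topology
-/

namespace Pool.Agent.H73.Avr

variable {X : Type} {d : X → X → ℝ} {r : ℝ}

theorem exists_isCoupling {μ ν : X →₀ ℝ} (hμ : ∀ x, 0 ≤ μ x) (hν : ∀ x, 0 ≤ ν x)
    (hμ1 : (μ.sum fun _ a => a) = 1) (hν1 : (ν.sum fun _ a => a) = 1) :
    ∃ π, IsCoupling π μ ν := by
  classical
  refine ⟨μ.sum fun x a => ν.sum fun y b => Finsupp.single (x, y) (a * b), ?_, ?_, ?_⟩
  · intro p
    rw [Finsupp.sum, Finsupp.finsetSum_apply]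
    refine Finset.sum_nonneg fun x _ => ?_
    rw [Finsupp.sum, Finsupp.finsetSum_apply]
    refine Finset.sum_nonneg fun y _ => ?_
    rw [Finsupp.single_apply]
    split_ifs
    · exact mul_nonneg (hμ x) (hν y)
    · exact le_rfl
  · rw [Finsupp.sum, Finsupp.mapDomain_finsetSum]
    have : ∀ x, Finsupp.mapDomain Prod.fst (ν.sum fun y b => Finsupp.single (x, y) (μ x * b)) =
        Finsupp.single x (μ x) := by
      intro x
      rw [Finsupp.sum, Finsupp.mapDomain_finsetSum]
      simp only [Finsupp.mapDomain_single]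
      rw [← Finsupp.single_finsetSum, ← Finset.mul_sum]
      have : ∑ y ∈ ν.support, ν y = 1 := hν1
      rw [this, mul_one]
    simp only [this]
    exact Finsupp.sum_single μ
  · rw [Finsupp.sum, Finsupp.mapDomain_finsetSum]
    have : ∀ x, Finsupp.mapDomain Prod.snd (ν.sum fun y b => Finsupp.single (x, y) (μ x * b)) =
        μ x • ν := by
      intro x
      rw [Finsupp.sum, Finsupp.mapDomain_finsetSum]
      simp only [Finsupp.mapDomain_single]
      have h2 : ∀ y, Finsupp.single y (μ x * ν y) = μ x • Finsupp.single y (ν y) := by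
        intro y; rw [Finsupp.smul_single, smul_eq_mul]
      simp only [h2]
      rw [← Finset.smul_sum]
      congr 1
      exact Finsupp.sum_single ν
    simp only [this]
    rw [← Finset.sum_smul]
    have : ∑ y ∈ μ.support, μ y = 1 := hμ1
    rw [this, one_smul]

theorem cost_nonneg (hd : ∀ x y, 0 ≤ d x y) {π : (X × X) →₀ ℝ} (hπ : ∀ p, 0 ≤ π p) :
    0 ≤ cost d π := by
  unfold cost
  rw [Finsupp.sum]
  exact Finset.sum_nonneg fun p _ => mul_nonneg (hπ p) (hd _ _)

theorem exists_coupling_lt {μ ν : AVR d r} {ε : ℝ} (h : W1 d μ.w ν.w < ε) :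
    ∃ π, IsCoupling π μ.w ν.w ∧ cost d π < ε := by
  obtain ⟨π0, hπ0⟩ := exists_isCoupling μ.nonneg ν.nonneg μ.total ν.total
  obtain ⟨c, ⟨π, hπ, rfl⟩, hc⟩ := exists_lt_of_csInf_lt (s := {c | ∃ π, IsCoupling π μ.w ν.w ∧
    c = cost d π}) ⟨_, π0, hπ0, rfl⟩ h
  exact ⟨π, hπ, hc⟩

theorem W1_le (hd : ∀ x y, 0 ≤ d x y) {μ ν : X →₀ ℝ} {π : (X × X) →₀ ℝ}
    (hπ : IsCoupling π μ ν) : W1 d μ ν ≤ cost d π := by
  refine csInf_le ⟨0, ?_⟩ ⟨π, hπ, rfl⟩
  rintro c ⟨π', hπ', rfl⟩
  exact cost_nonneg hd hπ'.1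

/-- integral of a complex function -/
noncomputable def integ (f : X → ℂ) (μ : X →₀ ℝ) : ℂ := μ.sum fun x a => (a : ℂ) * f x

theorem integ_sub_le {μ ν : X →₀ ℝ} {π : (X × X) →₀ ℝ} (hπ : IsCoupling π μ ν) {f : X → ℂ}
    {L : ℝ} (hL : ∀ x y, ‖f x - f y‖ ≤ L * d x y) :
    ‖integ f μ - integ f ν‖ ≤ L * cost d π := by
  obtain ⟨h0, h1, h2⟩ := hπ
  have e1 : integ f μ = π.sum fun p a => (a : ℂ) * f p.1 := by
    unfold integ
    rw [← h1, Finsupp.sum_mapDomain_index]
    · intro b; simp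
    · intro b m1 m2; push_cast; ring
  have e2 : integ f ν = π.sum fun p a => (a : ℂ) * f p.2 := by
    unfold integ
    rw [← h2, Finsupp.sum_mapDomain_index]
    · intro b; simp
    · intro b m1 m2; push_cast; ring
  rw [e1, e2, Finsupp.sum, Finsupp.sum, ← Finset.sum_sub_distrib]
  unfold cost
  rw [Finsupp.sum, Finset.mul_sum]
  refine (norm_sum_le _ _).trans (Finset.sum_le_sum fun p _ => ?_)
  rw [← mul_sub, norm_mul, Complex.norm_real, Real.norm_eq_abs, abs_of_nonneg (h0 p)]
  calc π p * ‖f p.1 - f p.2‖ ≤ π p * (L * d p.1 p.2) :=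
        mul_le_mul_of_nonneg_left (hL _ _) (h0 p)
    _ = L * (π p * d p.1 p.2) := by ring

theorem continuous_integ {f : X → ℂ} {L : ℝ} (hL0 : 0 < L)
    (hL : ∀ x y, ‖f x - f y‖ ≤ L * d x y) : Continuous (fun μ : AVR d r => integ f μ.w) := by
  refine continuous_def.2 fun V hV μ hμ => ?_
  obtain ⟨η, hη, hball⟩ := Metric.isOpen_iff.1 hV _ hμ
  refine ⟨η / L, by positivity, fun ν hν => ?_⟩
  obtain ⟨π, hπ, hc⟩ := exists_coupling_lt hν
  apply hball
  rw [Metric.mem_ball, dist_comm, dist_eq_norm]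
  refine lt_of_le_of_lt (integ_sub_le hπ hL) ?_
  rw [lt_div_iff₀ hL0] at hc
  linarith

/-- push forward of a point of the thickening under an isometry -/
noncomputable def AVR.map (T : X → X) (hT : ∀ x y, d (T x) (T y) = d x y)
    (hinj : Function.Injective T) (μ : AVR d r) : AVR d r where
  w := μ.w.mapDomain T
  nonneg := by
    classical
    intro x
    rw [Finsupp.mapDomain, Finsupp.sum, Finsupp.finsetSum_apply]
    refine Finset.sum_nonneg fun y _ => ?_
    rw [Finsupp.single_apply]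
    split_ifs
    · exact μ.nonneg y
    · exact le_rfl
  total := by
    rw [Finsupp.sum_mapDomain_index (by simp) (by simp)]
    exact μ.total
  spread := by
    classical
    intro x hx y hy hxy
    rw [Finsupp.mapDomain_support_of_injective hinj, Finset.mem_image] at hx hy
    obtain ⟨x', hx', rfl⟩ := hx
    obtain ⟨y', hy', rfl⟩ := hy
    rw [hT]
    exact μ.spread x' hx' y' hy' (fun h => hxy (by rw [h]))

theorem integ_map (T : X → X) (hT : ∀ x y, d (T x) (T y) = d x y)
    (hinj : Function.Injective T) (μ : AVR d r) (f : X → ℂ) :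
    integ f (μ.map T hT hinj).w = integ (fun x => f (T x)) μ.w := by
  unfold integ
  show (μ.w.mapDomain T).sum _ = _
  rw [Finsupp.sum_mapDomain_index]
  · intro b; simp
  · intro b m1 m2; push_cast; ring

theorem continuous_map (hd : ∀ x y, 0 ≤ d x y) (T : X → X) (hT : ∀ x y, d (T x) (T y) = d x y)
    (hinj : Function.Injective T) : Continuous (AVR.map (r := r) T hT hinj) := by
  refine continuous_def.2 fun V hV μ hμ => ?_
  obtain ⟨ε, hε, h⟩ := hV _ hμ
  refine ⟨ε, hε, fun ν hν => h _ ?_⟩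
  obtain ⟨π, ⟨h0, h1, h2⟩, hc⟩ := exists_coupling_lt hν
  have hcoup : IsCoupling (π.mapDomain (Prod.map T T)) (μ.map T hT hinj).w (ν.map T hT hinj).w := by
    classical
    refine ⟨?_, ?_, ?_⟩
    · intro p
      rw [Finsupp.mapDomain, Finsupp.sum, Finsupp.finsetSum_apply]
      refine Finset.sum_nonneg fun y _ => ?_
      rw [Finsupp.single_apply]
      split_ifs
      · exact h0 y
      · exact le_rfl
    · show _ = μ.w.mapDomain T
      rw [← h1, ← Finsupp.mapDomain_comp, ← Finsupp.mapDomain_comp]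
      rfl
    · show _ = ν.w.mapDomain T
      rw [← h2, ← Finsupp.mapDomain_comp, ← Finsupp.mapDomain_comp]
      rfl
  refine lt_of_le_of_lt (W1_le hd hcoup) ?_
  have : cost d (π.mapDomain (Prod.map T T)) = cost d π := by
    unfold cost
    rw [Finsupp.sum_mapDomain_index]
    · simp only [Prod.map_fst, Prod.map_snd, hT]
    · intro b; simp
    · intro b m1 m2; ring
  rw [this]; exact hc

end Pool.Agent.H73.Avr
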