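import Pool.Agent.H73.Avr.Descent

/-!
# Ordered simplices in a set, prism operators and the resolution chains
-/

namespace Pool.Agent.H73.Avr

open FreeAbelianGroup

variable {X : Type}

/-- formal sums of lists of points -/
abbrev O (X : Type) : Type := FreeAbelianGroup (List X)

/-- prepend a point -/
noncomputable def cns (x : X) : O X →+ O X := FreeAbelianGroup.map (List.cons x)

/-- boundary of a list -/
noncomputable def dl : List X → O X
  | [] => 0
  | (x :: σ) => of σ - cns x (dl σ)

/-- boundary -/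
noncomputable def dO : O X →+ O X := lift dl

/-- push forward -/
noncomputable def mp (f : X → X) : O X →+ O X := FreeAbelianGroup.map (List.map f)

/-- prism of a list -/
noncomputable def pl (f f' : X → X) : List X → O X
  | [] => 0
  | (x :: σ) => of (f x :: f' x :: σ.map f') - cns (f x) (pl f f' σ)

/-- prism operator -/
noncomputable def P (f f' : X → X) : O X →+ O X := lift (pl f f')

theorem cns_of (x : X) (σ : List X) : cns x (of σ) = of (x :: σ) := rfl
theorem mp_of (f : X → X) (σ : List X) : mp f (of σ) = of (σ.map f) := rfl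
theorem dO_of (σ : List X) : dO (of σ) = dl σ := lift_apply_of _ _
theorem P_of (f f' : X → X) (σ : List X) : P f f' (of σ) = pl f f' σ := lift_apply_of _ _

theorem dO_cns (x : X) (y : O X) : dO (cns x y) = y - cns x (dO y) := by
  have : (dO (X := X)).comp (cns x) = AddMonoidHom.id _ - (cns x).comp dO := by
    apply FreeAbelianGroup.lift_ext
    intro σ
    show dO (cns x (of σ)) = of σ - cns x (dO (of σ))
    rw [cns_of, dO_of, dO_of]; rfl
  exact DFunLike.congr_fun this y

theorem mp_cns (f : X → X) (x : X) (y : O X) : mp f (cns x y) = cns (f x) (mp f y) := by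
  have : (mp f).comp (cns x) = (cns (f x)).comp (mp f) := by
    apply FreeAbelianGroup.lift_ext
    intro σ; rfl
  exact DFunLike.congr_fun this y

theorem dO_mp (f : X → X) (y : O X) : dO (mp f y) = mp f (dO y) := by
  have : (dO (X := X)).comp (mp f) = (mp f).comp dO := by
    apply FreeAbelianGroup.lift_ext
    intro σ
    show dO (mp f (of σ)) = mp f (dO (of σ))
    rw [mp_of, dO_of, dO_of]
    induction σ with
    | nil => show (0 : O X) = mp f 0; rw [map_zero]
    | cons x σ ih =>
      show of (σ.map f) - cns (f x) (dl (σ.map f)) = mp f (of σ - cns x (dl σ))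
      rw [map_sub, mp_of, mp_cns, ih]
  exact DFunLike.congr_fun this y

theorem P_cns (f f' : X → X) (x : X) (y : O X) :
    P f f' (cns x y) = cns (f x) (cns (f' x) (mp f' y)) - cns (f x) (P f f' y) := by
  have : (P f f').comp (cns x) = (cns (f x)).comp ((cns (f' x)).comp (mp f')) -
      (cns (f x)).comp (P f f') := by
    apply FreeAbelianGroup.lift_ext
    intro σ
    show P f f' (cns x (of σ)) = cns (f x) (cns (f' x) (mp f' (of σ))) - cns (f x) (P f f' (of σ))
    rw [cns_of, P_of, P_of]; rfl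
  exact DFunLike.congr_fun this y

theorem prism (f f' : X → X) (y : O X) : dO (P f f' y) + P f f' (dO y) = mp f' y - mp f y := by
  have : (dO (X := X)).comp (P f f') + (P f f').comp dO = mp f' - mp f := by
    apply FreeAbelianGroup.lift_ext
    intro σ
    show dO (P f f' (of σ)) + P f f' (dO (of σ)) = mp f' (of σ) - mp f (of σ)
    rw [P_of, dO_of, mp_of, mp_of]
    induction σ with
    | nil =>
      show dO (0 : O X) + P f f' (0 : O X) = of ([] : List X) - of ([] : List X)
      rw [map_zero, map_zero, sub_self, add_zero]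
    | cons x σ ih =>
      show dO (of (f x :: f' x :: σ.map f') - cns (f x) (pl f f' σ)) +
        P f f' (of σ - cns x (dl σ)) = of (f' x :: σ.map f') - of (f x :: σ.map f)
      rw [map_sub, map_sub, dO_cns, P_cns, P_of, ← cns_of, ← cns_of, dO_cns, dO_cns, ← mp_of,
        dO_mp, dO_of, ← cns_of (f x) (σ.map f), ← mp_of f σ]
      have ih' : P f f' (dl σ) = mp f' (of σ) - mp f (of σ) - dO (pl f f' σ) := by
        rw [mp_of, mp_of, ← ih]; abel
      rw [ih']
      simp only [map_sub]
      abel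
  exact DFunLike.congr_fun this y

/-- subgroup spanned by lists with a property -/
def cl (p : List X → Prop) : AddSubgroup (O X) := AddSubgroup.closure {y | ∃ σ, p σ ∧ y = of σ}

theorem of_mem_cl {p : List X → Prop} {σ : List X} (h : p σ) : of σ ∈ cl p :=
  AddSubgroup.subset_closure ⟨σ, h, rfl⟩

theorem map_mem_of_cl {A : Type*} [AddCommGroup A] {p : List X → Prop} {S : AddSubgroup A}
    (f : O X →+ A) (h : ∀ σ, p σ → f (of σ) ∈ S) {y : O X} (hy : y ∈ cl p) : f y ∈ S := by
  have h1 : cl p ≤ S.comap f := by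
    unfold cl
    rw [AddSubgroup.closure_le]
    rintro _ ⟨σ, hσ, rfl⟩
    exact h σ hσ
  exact h1 hy

/-- lists with two equal neighbours -/
def Dg (σ : List X) : Prop := ∃ l x r, σ = l ++ x :: x :: r

theorem Dg.cons {σ : List X} (h : Dg σ) (y : X) : Dg (y :: σ) := by
  obtain ⟨l, x, r, rfl⟩ := h
  exact ⟨y :: l, x, r, rfl⟩

theorem Dg.head (x : X) (r : List X) : Dg (x :: x :: r) := ⟨[], x, r, rfl⟩

theorem Dg.cases {x : X} {τ : List X} (h : Dg (x :: τ)) : (∃ r, τ = x :: r) ∨ Dg τ := by
  obtain ⟨l, y, r, h⟩ := h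
  cases l with
  | nil =>
    simp only [List.nil_append, List.cons.injEq] at h
    obtain ⟨rfl, rfl⟩ := h
    exact Or.inl ⟨r, rfl⟩
  | cons z l =>
    simp only [List.cons_append, List.cons.injEq] at h
    exact Or.inr ⟨l, y, r, h.2⟩

theorem Dg.map {σ : List X} (h : Dg σ) (f : X → X) : Dg (σ.map f) := by
  obtain ⟨l, x, r, rfl⟩ := h
  exact ⟨l.map f, f x, r.map f, by simp⟩

theorem cns_mem_Dg {y : O X} (hy : y ∈ cl Dg) (x : X) : cns x y ∈ cl (X := X) Dg :=
  map_mem_of_cl (cns x) (fun σ hσ => of_mem_cl (hσ.cons x)) hy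

theorem pl_mem_Dg (f f' : X → X) (σ : List X) (h : Dg σ) : pl f f' σ ∈ cl (X := X) Dg := by
  induction σ with
  | nil => exact (cl Dg).zero_mem
  | cons x τ ih =>
    rcases h.cases with ⟨r, rfl⟩ | h'
    · show of (f x :: f' x :: (x :: r).map f') - cns (f x) (of (f x :: f' x :: r.map f') -
        cns (f x) (pl f f' r)) ∈ _
      rw [map_sub]
      refine (cl Dg).sub_mem ?_ ((cl Dg).sub_mem ?_ ?_)
      · exact of_mem_cl ((Dg.head _ _).cons _)
      · exact of_mem_cl (Dg.head _ _)
      · have : ∀ y : O X, cns (f x) (cns (f x) y) ∈ cl (X := X) Dg := by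
          intro y
          have h1 : y ∈ cl (X := X) (fun _ => True) := by
            unfold cl
            induction y using FreeAbelianGroup.induction_on with
            | zero => exact AddSubgroup.zero_mem _
            | of σ => exact AddSubgroup.subset_closure ⟨σ, trivial, rfl⟩
            | neg σ h => exact AddSubgroup.neg_mem _ h
            | add a b ha hb => exact AddSubgroup.add_mem _ ha hb
          exact map_mem_of_cl ((cns (f x)).comp (cns (f x)))
            (fun σ _ => of_mem_cl (Dg.head _ _)) h1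
        exact this _
    · show of (f x :: f' x :: τ.map f') - cns (f x) (pl f f' τ) ∈ _
      exact (cl Dg).sub_mem (of_mem_cl (((h'.map f').cons _).cons _)) (cns_mem_Dg (ih h') _)

theorem P_mem_Dg (f f' : X → X) {y : O X} (hy : y ∈ cl (X := X) Dg) : P f f' y ∈ cl (X := X) Dg :=
  map_mem_of_cl (P f f') (fun σ hσ => by rw [P_of]; exact pl_mem_Dg f f' σ hσ) hy

/-- the cone operator of a discrete homotopy -/
noncomputable def K (Hs : ℕ → X → X) (D : ℕ) : O X →+ O X :=
  ∑ i ∈ Finset.range D, P (Hs i) (Hs (i + 1))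

theorem K_apply (Hs : ℕ → X → X) (D : ℕ) (y : O X) :
    K Hs D y = ∑ i ∈ Finset.range D, P (Hs i) (Hs (i + 1)) y := by
  unfold K; rw [AddMonoidHom.finsetSum_apply]

theorem dO_K (Hs : ℕ → X → X) (D : ℕ) (y : O X) :
    dO (K Hs D y) + K Hs D (dO y) = mp (Hs D) y - mp (Hs 0) y := by
  rw [K_apply, K_apply, map_sum, ← Finset.sum_add_distrib]
  simp_rw [prism]
  exact Finset.sum_range_sub (fun i => mp (Hs i) y) D

theorem K_mem_Dg (Hs : ℕ → X → X) (D : ℕ) {y : O X} (hy : y ∈ cl (X := X) Dg) :
    K Hs D y ∈ cl (X := X) Dg := by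
  rw [K_apply]
  exact AddSubgroup.sum_mem _ fun i _ => P_mem_Dg _ _ hy

theorem mp_iter_of (g : X → X) (s : ℕ) (σ : List X) : (mp g)^[s] (of σ) = of (σ.map g^[s]) := by
  induction s with
  | zero => simp
  | succ s ih =>
    rw [Function.iterate_succ_apply', ih, mp_of, List.map_map, ← Function.iterate_succ']

/-- the operators `g - 1` and the norm, alternating -/
noncomputable def opc (g : X → X) (q k : ℕ) (y : O X) : O X :=
  if Even k then mp g y - y else Nm q (mp g) y

theorem opc_sub (g : X → X) (q k : ℕ) (x y : O X) :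
    opc g q k (x - y) = opc g q k x - opc g q k y := by
  unfold opc
  split_ifs
  · rw [map_sub]; abel
  · unfold Nm
    rw [← Finset.sum_sub_distrib]
    refine Finset.sum_congr rfl fun s _ => ?_
    rw [sub_eq_add_neg, iterate_map_add', iterate_map_neg', ← sub_eq_add_neg]

theorem dO_iter (g : X → X) (s : ℕ) (y : O X) : dO ((mp g)^[s] y) = (mp g)^[s] (dO y) := by
  induction s with
  | zero => rfl
  | succ s ih => rw [Function.iterate_succ_apply', dO_mp, ih, Function.iterate_succ_apply']

theorem dO_opc (g : X → X) (q k : ℕ) (y : O X) : dO (opc g q k y) = opc g q k (dO y) := by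
  unfold opc
  split_ifs
  · rw [map_sub, dO_mp]
  · unfold Nm
    rw [map_sum]
    exact Finset.sum_congr rfl fun s _ => dO_iter g s y

theorem opc_mem {g : X → X} {q k : ℕ} (hq : 1 < q) {S S' : AddSubgroup (O X)}
    (h : ∀ s < q, ∀ y ∈ S, (mp g)^[s] y ∈ S') {y : O X} (hy : y ∈ S) : opc g q k y ∈ S' := by
  unfold opc
  split_ifs
  · exact S'.sub_mem (h 1 hq y hy) (h 0 (by omega) y hy)
  · exact AddSubgroup.sum_mem _ fun s hs => h s (Finset.mem_range.1 hs) y hy

theorem iter_mem_Dg (g : X → X) (s : ℕ) {y : O X} (hy : y ∈ cl (X := X) Dg) :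
    (mp g)^[s] y ∈ cl (X := X) Dg := by
  induction s with
  | zero => exact hy
  | succ s ih =>
    rw [Function.iterate_succ_apply']
    exact map_mem_of_cl (mp g) (fun σ hσ => of_mem_cl (hσ.map g)) ih

theorem iter_mem_length (g : X → X) (s : ℕ) {n : ℕ} {y : O X}
    (hy : y ∈ cl (X := X) (fun σ => σ.length = n)) :
    (mp g)^[s] y ∈ cl (X := X) (fun σ => σ.length = n) := by
  induction s with
  | zero => exact hy
  | succ s ih =>
    rw [Function.iterate_succ_apply']
    exact map_mem_of_cl (mp g) (fun σ hσ => of_mem_cl (by simpa using hσ)) ih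

theorem mp_iter_q {g : X → X} {q : ℕ} (hg : g^[q] = id) (y : O X) : (mp g)^[q] y = y := by
  induction y using FreeAbelianGroup.induction_on with
  | zero => exact iterate_map_zero' _ _
  | of σ => rw [mp_iter_of, hg]; simp
  | neg σ h => rw [iterate_map_neg', h]
  | add a b ha hb => rw [iterate_map_add', ha, hb]

theorem opc_opc {g : X → X} {q : ℕ} (hg : g^[q] = id) (k : ℕ) (y : O X) :
    opc g q (k + 1) (opc g q k y) = 0 := by
  have tel : ∀ y : O X, Nm q (mp g) (mp g y) = Nm q (mp g) y := by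
    intro y
    unfold Nm
    have h1 := Finset.sum_range_succ (fun s => (mp g)^[s] y) q
    have h2 := Finset.sum_range_succ' (fun s => (mp g)^[s] y) q
    rw [h1] at h2
    have h3 : (mp g)^[q] y = (mp g)^[0] y := mp_iter_q hg y
    rw [h3] at h2
    have h4 := add_right_cancel h2
    rw [h4]
    exact Finset.sum_congr rfl fun s _ => (Function.iterate_succ_apply _ _ _).symm
  have com : ∀ y : O X, mp g (Nm q (mp g) y) = Nm q (mp g) (mp g y) := by
    intro y
    unfold Nm
    rw [map_sum]
    refine Finset.sum_congr rfl fun s _ => ?_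
    rw [← Function.iterate_succ_apply' (mp g) s y, Function.iterate_succ_apply]
  unfold opc
  rcases Nat.even_or_odd k with he | ho
  · rw [if_pos he, if_neg (Nat.not_even_iff_odd.2 he.add_one)]
    have : Nm q (mp g) (mp g y - y) = Nm q (mp g) (mp g y) - Nm q (mp g) y := by
      unfold Nm
      rw [← Finset.sum_sub_distrib]
      refine Finset.sum_congr rfl fun s _ => ?_
      rw [sub_eq_add_neg, iterate_map_add', iterate_map_neg', ← sub_eq_add_neg]
    rw [this, tel, sub_self]
  · rw [if_neg (Nat.not_even_iff_odd.2 ho), if_pos ho.add_one, com, tel, sub_self]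

/-- the chains of the minimal resolution built with the cone operator -/
noncomputable def ech (g : X → X) (q : ℕ) (Hs : ℕ → X → X) (D : ℕ) (x0 : X) : ℕ → O X
  | 0 => of [x0]
  | (k + 1) => K Hs D (opc g q k (ech g q Hs D x0 k))

theorem pl_mem (f f' : X → X) (σ : List X) : pl f f' σ ∈ cl (X := X)
    (fun τ => τ.length = σ.length + 1 ∧ ∀ y ∈ τ, ∃ x ∈ σ, y = f x ∨ y = f' x) := by
  induction σ with
  | nil => exact AddSubgroup.zero_mem _
  | cons x σ ih =>
    show of (f x :: f' x :: σ.map f') - cns (f x) (pl f f' σ) ∈ _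
    refine AddSubgroup.sub_mem _ (of_mem_cl ⟨by simp, ?_⟩) (map_mem_of_cl (cns (f x)) ?_ ih)
    · intro y hy
      rw [List.mem_cons, List.mem_cons, List.mem_map] at hy
      rcases hy with rfl | rfl | ⟨z, hz, rfl⟩
      · exact ⟨x, by simp, Or.inl rfl⟩
      · exact ⟨x, by simp, Or.inr rfl⟩
      · exact ⟨z, by simp [hz], Or.inr rfl⟩
    · rintro τ ⟨h1, h2⟩
      refine of_mem_cl ⟨by simp [h1], ?_⟩
      intro y hy
      rcases List.mem_cons.1 hy with rfl | hy
      · exact ⟨x, by simp, Or.inl rfl⟩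
      · obtain ⟨z, hz, h3⟩ := h2 y hy
        exact ⟨z, by simp [hz], h3⟩

/-- lists of length `k+1` contained in one of the small sets of level `k` -/
def Sm (F : ℕ → Set (Set X)) (k : ℕ) (σ : List X) : Prop :=
  σ.length = k + 1 ∧ ∃ S ∈ F k, ∀ x ∈ σ, x ∈ S

theorem ech_mem {g : X → X} {q : ℕ} (hq : 1 < q) {Hs : ℕ → X → X} {D : ℕ} {x0 : X}
    {F : ℕ → Set (Set X)} (h0 : ∃ S ∈ F 0, x0 ∈ S)
    (hF : ∀ k, ∀ S ∈ F k, ∀ s < q, ∀ i < D, ∃ S' ∈ F (k + 1), ∀ x ∈ S,
      Hs i (g^[s] x) ∈ S' ∧ Hs (i + 1) (g^[s] x) ∈ S') (k : ℕ) :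
    ech g q Hs D x0 k ∈ cl (Sm F k) := by
  induction k with
  | zero =>
    obtain ⟨S, hS, hx⟩ := h0
    exact of_mem_cl ⟨rfl, S, hS, by simpa using hx⟩
  | succ k ih =>
    show K Hs D (opc g q k (ech g q Hs D x0 k)) ∈ _
    have h1 : opc g q k (ech g q Hs D x0 k) ∈ cl (X := X) (fun σ => σ.length = k + 1 ∧
        ∃ S ∈ F k, ∃ s < q, ∀ y ∈ σ, ∃ x ∈ S, y = g^[s] x) := by
      refine opc_mem hq (fun s hs y hy => ?_) ih
      have h2 : ∀ y : O X, (mp g)^[s] y = (mp g^[s]) y := by
        intro y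
        induction y using FreeAbelianGroup.induction_on with
        | zero => rw [iterate_map_zero', map_zero]
        | of σ => rw [mp_iter_of, mp_of]
        | neg σ h => rw [iterate_map_neg', h, map_neg]
        | add a b ha hb => rw [iterate_map_add', ha, hb, map_add]
      rw [h2]
      refine map_mem_of_cl _ ?_ hy
      rintro σ ⟨hl, S, hS, hx⟩
      rw [mp_of]
      refine of_mem_cl ⟨by simpa using hl, S, hS, s, hs, ?_⟩
      intro y hy
      obtain ⟨x, hx1, rfl⟩ := List.mem_map.1 hy
      exact ⟨x, hx x hx1, rfl⟩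
    rw [K_apply]
    refine AddSubgroup.sum_mem _ fun i hi => map_mem_of_cl _ ?_ h1
    rintro σ ⟨hl, S, hS, s, hs, hx⟩
    rw [P_of]
    obtain ⟨S', hS', hin⟩ := hF k S hS s hs i (Finset.mem_range.1 hi)
    have h3 := pl_mem (Hs i) (Hs (i + 1)) σ
    have h4 : cl (X := X) (fun τ => τ.length = σ.length + 1 ∧
        ∀ y ∈ τ, ∃ x ∈ σ, y = Hs i x ∨ y = Hs (i + 1) x) ≤ cl (Sm F (k + 1)) := by
      unfold cl
      rw [AddSubgroup.closure_le]
      rintro _ ⟨τ, ⟨h5, h6⟩, rfl⟩
      refine AddSubgroup.subset_closure ⟨τ, ⟨by rw [h5, hl], S', hS', ?_⟩, rfl⟩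
      intro y hy
      obtain ⟨x, hxσ, hyx⟩ := h6 y hy
      obtain ⟨z, hz, rfl⟩ := hx x hxσ
      rcases hyx with rfl | rfl
      · exact (hin z hz).1
      · exact (hin z hz).2
    exact h4 h3

theorem ech_length {g : X → X} {q : ℕ} (hq : 1 < q) {Hs : ℕ → X → X} {D : ℕ} {x0 : X} (k : ℕ) :
    ech g q Hs D x0 k ∈ cl (X := X) (fun σ => σ.length = k + 1) := by
  have h := ech_mem (g := g) hq (Hs := Hs) (D := D) (x0 := x0) (F := fun _ => {Set.univ})
    ⟨Set.univ, rfl, trivial⟩ (fun k S _ s _ i _ => ⟨Set.univ, rfl, fun x _ => ⟨trivial, trivial⟩⟩) k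
  have h4 : cl (X := X) (Sm (fun _ => {Set.univ}) k) ≤ cl (X := X) (fun σ => σ.length = k + 1) := by
    unfold cl
    rw [AddSubgroup.closure_le]
    rintro _ ⟨τ, h5, rfl⟩
    exact AddSubgroup.subset_closure ⟨τ, h5.1, rfl⟩
  exact h4 h

/-- the boundary relation modulo degenerate lists -/
theorem dO_ech {g : X → X} {q : ℕ} (hq : 1 < q) (hg : g^[q] = id) {Hs : ℕ → X → X} {D : ℕ}
    {x0 x1 : X} (h0 : ∀ x, Hs 0 x = x) (hD : ∀ x, Hs D x = x1) (k : ℕ) :
    dO (ech g q Hs D x0 (k + 1)) + opc g q k (ech g q Hs D x0 k) ∈ cl (X := X) Dg := by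
  have hmp0 : ∀ y : O X, mp (Hs 0) y = y := by
    intro y
    have : Hs 0 = id := funext h0
    rw [this]
    induction y using FreeAbelianGroup.induction_on with
    | zero => rw [map_zero]
    | of σ => rw [mp_of]; simp
    | neg σ h => rw [map_neg, h]
    | add a b ha hb => rw [map_add, ha, hb]
  have step : ∀ c : O X, dO c ∈ cl (X := X) Dg → mp (Hs D) c ∈ cl (X := X) Dg →
      dO (K Hs D c) + c ∈ cl (X := X) Dg := by
    intro c h1 h2
    have h3 := dO_K Hs D c
    rw [hmp0] at h3
    have h4 : dO (K Hs D c) + c = mp (Hs D) c - K Hs D (dO c) := by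
      rw [eq_sub_iff_add_eq]
      calc dO (K Hs D c) + c + K Hs D (dO c) = (dO (K Hs D c) + K Hs D (dO c)) + c := by abel
        _ = mp (Hs D) c := by rw [h3]; abel
    rw [h4]
    exact AddSubgroup.sub_mem _ h2 (K_mem_Dg Hs D h1)
  induction k with
  | zero =>
    show dO (K Hs D (opc g q 0 (of [x0]))) + opc g q 0 (of [x0]) ∈ _
    have hc : opc g q 0 (of [x0]) = of [g x0] - of [x0] := by
      unfold opc; rw [if_pos (by decide)]; rfl
    rw [hc]
    apply step
    · have : dO (of [g x0] - of [x0]) = (0 : O X) := by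
        rw [map_sub, dO_of, dO_of]
        simp [dl]
      rw [this]; exact AddSubgroup.zero_mem _
    · have : mp (Hs D) (of [g x0] - of [x0]) = (0 : O X) := by
        rw [map_sub, mp_of, mp_of]
        simp [hD]
      rw [this]; exact AddSubgroup.zero_mem _
  | succ k ih =>
    show dO (K Hs D (opc g q (k + 1) (ech g q Hs D x0 (k + 1)))) +
      opc g q (k + 1) (ech g q Hs D x0 (k + 1)) ∈ _
    apply step
    · rw [dO_opc]
      set z := dO (ech g q Hs D x0 (k + 1)) + opc g q k (ech g q Hs D x0 k) with hz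
      have h1 : dO (ech g q Hs D x0 (k + 1)) = z - opc g q k (ech g q Hs D x0 k) := by
        rw [hz]; abel
      rw [h1, opc_sub, opc_opc hg, sub_zero]
      exact opc_mem hq (fun s _ y hy => iter_mem_Dg g s hy) ih
    · have h1 : opc g q (k + 1) (ech g q Hs D x0 (k + 1)) ∈
          cl (X := X) (fun σ => σ.length = k + 1 + 1) := by
        refine opc_mem hq (fun s _ y hy => iter_mem_length g s hy) (ech_length hq (k + 1))
      refine map_mem_of_cl (mp (Hs D)) (fun σ hσ => ?_) h1
      rw [mp_of]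
      match σ, hσ with
      | a :: b :: r, _ =>
        rw [List.map_cons, List.map_cons, hD, hD]
        exact of_mem_cl (Dg.head _ _)

end Pool.Agent.H73.Avr
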